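import Pool.Agent.Y916.Sch.Main
import Pool.Agent.H667R3.W5

/-!
# Coefficients in the powers of a space, addition theorem
-/

set_option autoImplicit false

open Module
open scoped PeriodPair

namespace Pool.Agent.Y916.Sch

section Co

variable {κ : Type} {K : IntermediateField ℚ ℂ}

/-- the coefficients of `f` are in `V^e` -/
def Co (V : Submodule K ℂ) (e : ℕ) (f : MvPolynomial κ ℂ) : Prop := ∀ s, f.coeff s ∈ V ^ e

theorem pow_le {V : Submodule K ℂ} (h1 : (1 : ℂ) ∈ V) {a b : ℕ} (hab : a ≤ b) : V ^ a ≤ V ^ b := by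
  have h2 : (1 : Submodule K ℂ) ≤ V := Submodule.one_le.2 h1
  exact pow_le_pow_right' h2 hab

theorem Co.mul {V : Submodule K ℂ} {a b : ℕ} {f g : MvPolynomial κ ℂ} (hf : Co V a f) (hg : Co V b g) :
    Co V (a + b) (f * g) := by
  classical
  intro s
  rw [MvPolynomial.coeff_mul, pow_add]
  exact Submodule.sum_mem _ fun x _ => Submodule.mul_mem_mul (hf _) (hg _)

theorem Co.mono {V : Submodule K ℂ} (h1 : (1 : ℂ) ∈ V) {a b : ℕ} (hab : a ≤ b) {f : MvPolynomial κ ℂ} (hf : Co V a f) :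
    Co V b f := fun s => pow_le h1 hab (hf s)

theorem Co.C {V : Submodule K ℂ} {a : ℕ} {c : ℂ} (hc : c ∈ V ^ a) : Co V a (MvPolynomial.C c : MvPolynomial κ ℂ) := by
  classical
  intro s
  rw [MvPolynomial.coeff_C]
  split_ifs
  · exact hc
  · exact Submodule.zero_mem _

theorem Co.X {V : Submodule K ℂ} (i : κ) : Co V 0 (MvPolynomial.X i : MvPolynomial κ ℂ) := by
  classical
  intro s
  rw [MvPolynomial.coeff_X']
  split_ifs
  · rw [pow_zero]
    exact Submodule.one_le.1 le_rfl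
  · exact Submodule.zero_mem _

theorem Co.add {V : Submodule K ℂ} {a : ℕ} {f g : MvPolynomial κ ℂ} (hf : Co V a f) (hg : Co V a g) :
    Co V a (f + g) := by
  intro s
  rw [MvPolynomial.coeff_add]
  exact Submodule.add_mem _ (hf s) (hg s)

theorem Co.sum {ι : Type} {V : Submodule K ℂ} {a : ℕ} (s : Finset ι) (f : ι → MvPolynomial κ ℂ)
    (hf : ∀ i ∈ s, Co V a (f i)) : Co V a (∑ i ∈ s, f i) := by
  intro m
  rw [MvPolynomial.coeff_sum]
  exact Submodule.sum_mem _ fun k hk => hf k hk m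

theorem Co.one {V : Submodule K ℂ} : Co V 0 (1 : MvPolynomial κ ℂ) := by
  have h : Co V 0 (MvPolynomial.C (1 : ℂ) : MvPolynomial κ ℂ) := Co.C (by
    rw [pow_zero]
    exact Submodule.one_le.1 le_rfl)
  simpa using h

theorem Co.pow {V : Submodule K ℂ} {a : ℕ} {f : MvPolynomial κ ℂ} (hf : Co V a f) (n : ℕ) : Co V (a * n) (f ^ n) := by
  induction n with
  | zero =>
    rw [pow_zero, mul_zero]
    exact Co.one
  | succ n ih =>
    rw [pow_succ, mul_add, mul_one]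
    exact ih.mul hf

theorem Co.prod {ι : Type} {V : Submodule K ℂ} {a : ℕ} (s : Finset ι) (f : ι → MvPolynomial κ ℂ) (m : ι → ℕ)
    (hf : ∀ i, Co V a (f i)) : Co V (a * ∑ i ∈ s, m i) (∏ i ∈ s, f i ^ m i) := by
  classical
  induction s using Finset.induction_on with
  | empty =>
    rw [Finset.prod_empty, Finset.sum_empty, mul_zero]
    exact Co.one
  | insert i s hi ih =>
    rw [Finset.prod_insert hi, Finset.sum_insert hi, mul_add]
    exact ((hf i).pow (m i)).mul ih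

theorem smul_mem' {V : Submodule K ℂ} {n : ℕ} {k x : ℂ} (hk : k ∈ K) (hx : x ∈ V ^ n) : k * x ∈ V ^ n := by
  have : k * x = (⟨k, hk⟩ : K) • x := rfl
  rw [this]
  exact Submodule.smul_mem _ _ hx

/-- substitution of elements with a common denominator -/
theorem co_sub {ι : Type} [Fintype ι] (L : IntermediateField ℚ ℂ) (hLK : L ≤ K) (V : Submodule K ℂ) (h1 : (1 : ℂ) ∈ V)
    (e δ : ℕ) (D : ℂ) (hD : D ∈ V ^ e) (g : ι → MvPolynomial κ ℂ) (hg : ∀ a, Co V e (MvPolynomial.C D * g a))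
    (P : MvPolynomial ι L) (hP : P.totalDegree ≤ δ) :
    Co V (e * δ) (MvPolynomial.C (D ^ δ) * MvPolynomial.aeval g P) := by
  classical
  rw [MvPolynomial.aeval_def, MvPolynomial.eval₂_eq', Finset.mul_sum]
  refine Co.sum _ _ fun t ht => ?_
  have h2 : ∑ i, t i ≤ δ := by
    have h3 := (MvPolynomial.le_totalDegree ht).trans hP
    rwa [Finsupp.sum_fintype _ _ (fun _ => rfl)] at h3
  have h3 : algebraMap L (MvPolynomial κ ℂ) (P.coeff t) = MvPolynomial.C (algebraMap L ℂ (P.coeff t)) := rfl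
  have h4 : MvPolynomial.C (D ^ δ) * (algebraMap L (MvPolynomial κ ℂ) (P.coeff t) * ∏ i, g i ^ t i) =
      MvPolynomial.C (algebraMap L ℂ (P.coeff t)) *
        ((MvPolynomial.C D) ^ (δ - ∑ i, t i) * ∏ i, (MvPolynomial.C D * g i) ^ t i) := by
    rw [h3]
    simp only [mul_pow]
    rw [Finset.prod_mul_distrib, Finset.prod_pow_eq_pow_sum, map_pow]
    have h5 : (MvPolynomial.C D : MvPolynomial κ ℂ) ^ δ =
        MvPolynomial.C D ^ (δ - ∑ i, t i) * MvPolynomial.C D ^ (∑ i, t i) := by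
      rw [← pow_add, Nat.sub_add_cancel h2]
    rw [h5]
    ring
  rw [h4]
  have h5 : Co V 0 (MvPolynomial.C (algebraMap L ℂ (P.coeff t)) : MvPolynomial κ ℂ) := by
    refine Co.C ?_
    have h6 := smul_mem' (V := V) (n := 0) (k := algebraMap L ℂ (P.coeff t)) (x := 1) (hLK (P.coeff t).2) (by
      rw [pow_zero]
      exact Submodule.one_le.1 le_rfl)
    rwa [mul_one] at h6
  have h6 := h5.mul (((Co.C (κ := κ) (V := V) (a := e) hD).pow (δ - ∑ i, t i)).mul
    (Co.prod Finset.univ (fun i => MvPolynomial.C D * g i) (fun i => t i) hg))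
  refine h6.mono h1 (le_of_eq ?_)
  rw [zero_add, ← mul_add, Nat.sub_add_cancel h2]

theorem deg_aeval {ι : Type} (L : IntermediateField ℚ ℂ) (g : ι → MvPolynomial κ ℂ) (hg : ∀ a, (g a).totalDegree ≤ 1)
    (P : MvPolynomial ι L) {δ : ℕ} (hP : P.totalDegree ≤ δ) (c : ℂ) :
    (MvPolynomial.C c * MvPolynomial.aeval g P).totalDegree ≤ δ := by
  classical
  refine (MvPolynomial.totalDegree_mul _ _).trans ?_
  rw [MvPolynomial.totalDegree_C, zero_add, MvPolynomial.aeval_def, MvPolynomial.eval₂_eq]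
  refine MvPolynomial.totalDegree_finsetSum_le fun t ht => ?_
  have h3 : algebraMap L (MvPolynomial κ ℂ) (P.coeff t) = MvPolynomial.C (algebraMap L ℂ (P.coeff t)) := rfl
  rw [h3]
  refine (MvPolynomial.totalDegree_mul _ _).trans ?_
  rw [MvPolynomial.totalDegree_C, zero_add]
  refine (MvPolynomial.totalDegree_finset_prod _ _).trans ?_
  refine le_trans (Finset.sum_le_sum fun i _ => ?_) ((MvPolynomial.le_totalDegree ht).trans hP)
  refine (MvPolynomial.totalDegree_pow _ _).trans ?_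
  exact (Nat.mul_le_mul_left _ (hg i)).trans (by rw [mul_one])

/-- the powers of the space spanned by a `ℚ`-space -/
theorem span_pow_le (W : Submodule ℚ ℂ) (n : ℕ) :
    (Submodule.span K (W : Set ℂ)) ^ n ≤ Submodule.span K ((W ^ n : Submodule ℚ ℂ) : Set ℂ) := by
  rw [Submodule.span_pow]
  refine Submodule.span_mono ?_
  exact Submodule.pow_subset_pow (M := W) (n := n)

end Co

/-- the addition theorem with denominators -/
theorem add_den (Λ : PeriodPair) {K : IntermediateField ℚ ℂ} {V : Submodule K ℂ} (h1 : (1 : ℂ) ∈ V) {z p : ℂ}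
    (hp : p ∉ Λ.lattice) (h2p : 2 * p ∉ Λ.lattice) (hzp : z + p ∉ Λ.lattice) (hne : z ∉ Λ.lattice → ℘[Λ] z ≠ ℘[Λ] p)
    (hα : ℘[Λ] p ∈ K) (hβ : ℘'[Λ] p ∈ K) (hg : Λ.g₂ ∈ K) (hA : ℘[Λ] z ∈ V) (hB : ℘'[Λ] z ∈ V)
    (hζ : z ∉ Λ.lattice → H667R3.zeta Λ z ∈ V) (hη : z ∈ Λ.lattice → H667R3.eta Λ z ∈ V) :
    ∃ D : ℂ, D ≠ 0 ∧ D ∈ V ^ 5 ∧ D * ℘[Λ] (z + p) ∈ V ^ 5 ∧ D * ℘'[Λ] (z + p) ∈ V ^ 5 ∧
      D * (H667R3.zeta Λ (z + p) - H667R3.zeta Λ p) ∈ V ^ 5 := by
  have hm : ∀ {a b : ℕ} {x y : ℂ}, x ∈ V ^ a → y ∈ V ^ b → x * y ∈ V ^ (a + b) := by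
    intro a b x y hx hy
    rw [pow_add]
    exact Submodule.mul_mem_mul hx hy
  have hup : ∀ {a : ℕ} {x : ℂ}, a ≤ 5 → x ∈ V ^ a → x ∈ V ^ 5 := fun ha hx => pow_le h1 ha hx
  have hV1 : ∀ {x : ℂ}, x ∈ V → x ∈ V ^ 1 := fun hx => by rwa [pow_one]
  have h15 : (1 : ℂ) ∈ V ^ 5 := hup (by norm_num : 1 ≤ 5) (hV1 h1)
  by_cases hz : z ∈ Λ.lattice
  · refine ⟨1, one_ne_zero, h15, ?_, ?_, ?_⟩
    · have h3 : ℘[Λ] (z + p) = ℘[Λ] p := by
        rw [add_comm]
        exact Λ.weierstrassP_add_coe p ⟨z, hz⟩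
      rw [h3, one_mul]
      have h4 := smul_mem' (V := V) hα h15
      rwa [mul_one] at h4
    · have h3 : ℘'[Λ] (z + p) = ℘'[Λ] p := by
        rw [add_comm]
        exact Λ.derivWeierstrassP_add_coe p ⟨z, hz⟩
      rw [h3, one_mul]
      have h4 := smul_mem' (V := V) hβ h15
      rwa [mul_one] at h4
    · have h3 : H667R3.zeta Λ (z + p) - H667R3.zeta Λ p = H667R3.eta Λ z := by
        rw [add_comm, H667R3.zeta_add_coe Λ hp hz]
        ring
      rw [h3, one_mul]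
      exact hup (by norm_num : 1 ≤ 5) (hV1 (hη hz))
  · have hne' := hne hz
    have hzp' : p + z ∉ Λ.lattice := by rwa [add_comm]
    have hzm : p - z ∉ Λ.lattice := by
      intro h
      exact hne' ((H667R3.wp_eq_iff Λ hp hz).2 (Or.inr h)).symm
    set A := ℘[Λ] z with hAdef
    set B := ℘'[Λ] z with hBdef
    set α := ℘[Λ] p with hαdef
    set β := ℘'[Λ] p with hβdef
    have ha0 : α - A ≠ 0 := sub_ne_zero.2 (Ne.symm hne')
    have e1 := H667R3.wp_add Λ h2p hz hzp' hzm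
    have e2 := H667R3.wp'_add Λ h2p hz hzp' hzm
    have e3 := H667R3.zeta_add Λ hp hz hzp' hzm
    rw [← hAdef, ← hBdef, ← hαdef, ← hβdef] at e1 e2 e3
    have ha : α - A ∈ V ^ 1 := by
      rw [pow_one]
      refine Submodule.sub_mem _ ?_ hA
      have h4 := smul_mem' (V := V) (n := 1) (x := 1) hα (by rwa [pow_one])
      rwa [mul_one, pow_one] at h4
    have hb : β - B ∈ V ^ 1 := by
      rw [pow_one]
      refine Submodule.sub_mem _ ?_ hB
      have h4 := smul_mem' (V := V) (n := 1) (x := 1) hβ (by rwa [pow_one])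
      rwa [mul_one, pow_one] at h4
    set a := α - A with hadef
    set b := β - B with hbdef
    have ha2 : a ^ 2 ∈ V ^ 2 := by
      have h := hm ha ha
      rwa [show a * a = a ^ 2 by ring] at h
    have ha3 : a ^ 3 ∈ V ^ 3 := by
      have h := hm ha2 ha
      rwa [show a ^ 2 * a = a ^ 3 by ring] at h
    have ha4 : a ^ 4 ∈ V ^ 4 := by
      have h := hm ha3 ha
      rwa [show a ^ 3 * a = a ^ 4 by ring] at h
    have ha2b : a ^ 2 * b ∈ V ^ 3 := hm ha2 hb
    have ha3b : a ^ 3 * b ∈ V ^ 4 := hm ha3 hb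
    have hab : a * b ∈ V ^ 2 := hm ha hb
    have ha4z : a ^ 4 * H667R3.zeta Λ z ∈ V ^ 5 := hm ha4 (hV1 (hζ hz))
    have hnat : ∀ n : ℕ, (n : ℂ) ∈ K := fun n => natCast_mem K n
    have hq : 6 * α ^ 2 - Λ.g₂ / 2 ∈ K := by
      refine sub_mem (mul_mem (by exact_mod_cast hnat 6) (pow_mem hα 2)) (div_mem hg (by exact_mod_cast hnat 2))
    set q := 6 * α ^ 2 - Λ.g₂ / 2 with hqdef
    refine ⟨4 * a ^ 4, mul_ne_zero (by norm_num) (pow_ne_zero 4 ha0), ?_, ?_, ?_, ?_⟩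
    · exact hup (by norm_num : 4 ≤ 5) (smul_mem' (by exact_mod_cast hnat 4) ha4)
    · have e4 : 4 * a ^ 4 * ℘[Λ] (z + p) = (4 * α) * a ^ 4 + ((-2 * q) * a ^ 3 + (2 * β) * (a ^ 2 * b)) := by
        rw [add_comm z p, e1]
        field_simp
        ring
      rw [e4]
      refine Submodule.add_mem _ (hup (by norm_num : 4 ≤ 5) (smul_mem' (mul_mem (by exact_mod_cast hnat 4) hα) ha4))
        (Submodule.add_mem _ (hup (by norm_num : 3 ≤ 5) (smul_mem' ?_ ha3))
          (hup (by norm_num : 3 ≤ 5) (smul_mem' (mul_mem (by exact_mod_cast hnat 2) hβ) ha2b)))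
      exact mul_mem (neg_mem (by exact_mod_cast hnat 2)) hq
    · have e4 : 4 * a ^ 4 * ℘'[Λ] (z + p) = (4 * β) * a ^ 4 + ((-24 * (α * β)) * a ^ 3 + ((2 * q) * (a ^ 2 * b) +
          ((4 * (q * β)) * a ^ 2 + (-4 * β ^ 2) * (a * b)))) := by
        rw [add_comm z p, e2]
        field_simp
        ring
      rw [e4]
      have k4 : (4 : ℂ) ∈ K := by exact_mod_cast hnat 4
      have k2 : (2 : ℂ) ∈ K := by exact_mod_cast hnat 2
      have k24 : (24 : ℂ) ∈ K := by exact_mod_cast hnat 24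
      refine Submodule.add_mem _ (hup (by norm_num : 4 ≤ 5) (smul_mem' (mul_mem k4 hβ) ha4))
        (Submodule.add_mem _ (hup (by norm_num : 3 ≤ 5) (smul_mem' (mul_mem (neg_mem k24) (mul_mem hα hβ)) ha3))
        (Submodule.add_mem _ (hup (by norm_num : 3 ≤ 5) (smul_mem' (mul_mem k2 hq) ha2b))
        (Submodule.add_mem _ (hup (by norm_num : 2 ≤ 5) (smul_mem' (mul_mem k4 (mul_mem hq hβ)) ha2))
          (hup (by norm_num : 2 ≤ 5) (smul_mem' (mul_mem (neg_mem k4) (pow_mem hβ 2)) hab)))))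
    · have e4 : 4 * a ^ 4 * (H667R3.zeta Λ (z + p) - H667R3.zeta Λ p) =
          4 * (a ^ 4 * H667R3.zeta Λ z) + 2 * (a ^ 3 * b) := by
        rw [add_comm z p, e3]
        field_simp
        ring
      rw [e4]
      exact Submodule.add_mem _ (smul_mem' (by exact_mod_cast hnat 4) ha4z)
        (hup (by norm_num : 4 ≤ 5) (smul_mem' (by exact_mod_cast hnat 2) ha3b))

end Pool.Agent.Y916.Sch
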