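import Pool.Agent.Y916.Sch.EllT
import Pool.Agent.H667R3.W6

/-!
# Translates of the points of the Lie algebra of `E^n × G_m^s` by logarithms of algebraic points: almost all tuples
-/

set_option autoImplicit false

open Module
open scoped PeriodPair

namespace Pool.Agent.Y916.Sch

/-- the numbers `p_i, ζ(p_i), t_l` -/
noncomputable def XP (Λ : PeriodPair) {n s : ℕ} (p : Fin n → ℂ) (t : Fin s → ℂ) : Fin n × Fin 2 ⊕ Fin s → ℂ :=
  Sum.elim (fun a => ![p a.1, H667R3.zeta Λ (p a.1)] a.2) t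

/-- the numbers `℘(p_i), ℘'(p_i), exp(t_l)` -/
noncomputable def EP (Λ : PeriodPair) {n s : ℕ} (p : Fin n → ℂ) (t : Fin s → ℂ) : Fin n × Fin 2 ⊕ Fin s → ℂ :=
  Sum.elim (fun a => ![℘[Λ] (p a.1), ℘'[Λ] (p a.1)] a.2) fun l => Complex.exp (t l)

def FrP (Λ : PeriodPair) (δ d : ℕ) {υ : Type} {n s : ℕ} (w : υ → ℂ) (p : Fin n → ℂ) (t : Fin s → ℂ) : Prop :=
  ∀ L : IntermediateField ℚ ℂ, FiniteDimensional ℚ L → finrank ℚ L ≤ d →
  ∀ P : MvPolynomial (υ ⊕ ((Fin n × Fin 2 ⊕ Fin s) ⊕ (Fin n × Fin 2 ⊕ Fin s))) L, P.totalDegree ≤ δ →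
  MvPolynomial.aeval (Sum.elim w (Sum.elim (XP Λ p t) (EP Λ p t))) P = 0 →
  ∀ v : Fin n × Fin 2 ⊕ Fin s → ℂ, MvPolynomial.aeval (Sum.elim w (Sum.elim v (EP Λ p t))) P = 0

def BadP (Λ : PeriodPair) (δ d : ℕ) {υ : Type} {n s : ℕ} (w : υ → ℂ) (z : Fin n → ℂ) (y : Fin s → ℂ)
    (α : Fin (n + s) → ℂ) : Prop :=
  ∃ (p : Fin n → ℂ) (t : Fin s → ℂ), (∀ i, p i ∉ Λ.lattice ∧ p i - z i ∉ Λ.lattice ∧
    ℘[Λ] (p i - z i) = α (Fin.castAdd s i)) ∧ (∀ l, Complex.exp (t l - y l) = α (Fin.natAdd n l)) ∧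
    ¬ FrP Λ δ d w p t

/-- the coordinates of `E^n × G_m^s` in `(E × G_m)^(n+s)` -/
def phi (n s : ℕ) : Fin n × Fin 2 ⊕ Fin s → Fin (n + s) × Fin 3 :=
  Sum.elim (fun a => (Fin.castAdd s a.1, Fin.castSucc a.2)) fun l => (Fin.natAdd n l, 2)

theorem phi_inj (n s : ℕ) : Function.Injective (phi n s) := by
  rintro (⟨i, c⟩ | l) (⟨i', c'⟩ | l') h
  · simp only [phi, Sum.elim_inl, Prod.mk.injEq] at h
    have h1 : i = i' := Fin.castAdd_injective _ _ h.1
    have h2 : c = c' := Fin.castSucc_injective _ h.2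
    rw [h1, h2]
  · simp only [phi, Sum.elim_inl, Sum.elim_inr, Prod.mk.injEq] at h
    have h1 := congrArg Fin.val h.1
    simp at h1
    omega
  · simp only [phi, Sum.elim_inl, Sum.elim_inr, Prod.mk.injEq] at h
    have h1 := congrArg Fin.val h.1
    simp at h1
    omega
  · simp only [phi, Sum.elim_inr, Prod.mk.injEq] at h
    have h1 : l = l' := Fin.natAdd_injective _ _ h.1
    rw [h1]

theorem badP_badE (Λ : PeriodPair) {δ d : ℕ} {υ : Type} {n s : ℕ} (w : υ → ℂ) (z : Fin n → ℂ) (y : Fin s → ℂ)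
    (α : Fin (n + s) → ℂ) (h0 : ∀ i, α i ≠ 0) (h : BadP Λ δ d w z y α) :
    BadE Λ δ d w (Fin.append z 0) (Fin.append 0 y) α := by
  obtain ⟨p, t, hp, ht, hF⟩ := h
  choose p₂ hp₂ hp₂' using fun l : Fin s => H667R3.exists_wp_eq Λ (α (Fin.natAdd n l))
  refine ⟨Fin.append p p₂, Fin.append (fun i => Complex.log (α (Fin.castAdd s i))) t, ?_, ?_, ?_, ?_, ?_⟩
  · intro i
    refine Fin.addCases (fun i => ?_) (fun l => ?_) i
    · rw [Fin.append_left]
      exact (hp i).1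
    · rw [Fin.append_right]
      exact hp₂ l
  · intro i
    refine Fin.addCases (fun i => ?_) (fun l => ?_) i
    · rw [Fin.append_left, Fin.append_left]
      exact (hp i).2.1
    · rw [Fin.append_right, Fin.append_right]
      simpa using hp₂ l
  · intro i
    refine Fin.addCases (fun i => ?_) (fun l => ?_) i
    · rw [Fin.append_left, Fin.append_left]
      exact (hp i).2.2
    · rw [Fin.append_right, Fin.append_right]
      simpa using hp₂' l
  · intro i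
    refine Fin.addCases (fun i => ?_) (fun l => ?_) i
    · rw [Fin.append_left, Fin.append_left]
      simpa using Complex.exp_log (h0 (Fin.castAdd s i))
    · rw [Fin.append_right, Fin.append_right]
      exact ht l
  · intro hFE
    apply hF
    intro L hL1 hL2 P hP1 hP2 v
    have hE : ∀ x, E3 Λ (Fin.append p p₂) (Fin.append (fun i => Complex.log (α (Fin.castAdd s i))) t) (phi n s x) =
        EP Λ p t x := by
      rintro (⟨i, c⟩ | l)
      · fin_cases c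
        · simp [E3, EP, phi, Fin.append_left]
        · simp [E3, EP, phi, Fin.append_left]
      · simp [E3, EP, phi, Fin.append_right]
    have hX : ∀ x, X3 Λ (Fin.append p p₂) (Fin.append (fun i => Complex.log (α (Fin.castAdd s i))) t) (phi n s x) =
        XP Λ p t x := by
      rintro (⟨i, c⟩ | l)
      · fin_cases c
        · simp [X3, XP, phi, Fin.append_left]
        · simp [X3, XP, phi, Fin.append_left]
      · simp [X3, XP, phi, Fin.append_right]
    have h1 := hFE L hL1 hL2 (MvPolynomial.rename (Sum.map id (Sum.map (phi n s) (phi n s))) P)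
      ((MvPolynomial.totalDegree_rename_le _ _).trans hP1) (by
        rw [MvPolynomial.aeval_rename, ← hP2]
        congr 2
        funext x
        rcases x with x | x | x
        · rfl
        · exact hX x
        · exact hE x) (Function.extend (phi n s) v 0)
    rw [MvPolynomial.aeval_rename] at h1
    rw [← h1]
    congr 2
    funext x
    rcases x with x | x | x
    · rfl
    · exact ((phi_inj n s).extend_apply v 0 x).symm
    · exact (hE x).symm

theorem tupP (Λ : PeriodPair) (a b : ℚ) (ha : Λ.g₂ = a) (hb : Λ.g₃ = b) (n s q m δ d : ℕ) (hm : 1 ≤ m) :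
    ∃ c : ℝ, 0 < c ∧ ∃ C : ℝ, 0 ≤ C ∧ ∀ (w : Fin q → ℂ) (z : Fin n → ℂ) (y : Fin s → ℂ) (T : ℕ), 1 ≤ T →
      {α : Fin (n + s) → ℂ | (∀ i, Sl.AInt m T (α i)) ∧ BadP Λ δ d w z y α}.Finite ∧
      ({α : Fin (n + s) → ℂ | (∀ i, Sl.AInt m T (α i)) ∧ BadP Λ δ d w z y α}.ncard : ℝ) ≤
        C * (T : ℝ) ^ ((((n + s) * Sl.Mm m : ℕ) : ℝ) - c) := by
  classical
  obtain ⟨c, hc, C, hC, h⟩ := tupE Λ a b ha hb (n + s) q m δ d hm
  obtain ⟨C₂, hC₂, hfew⟩ := few m (n + s) 1 hm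
  refine ⟨min c 1, lt_min hc one_pos, C + C₂, by positivity, fun w z y T hT => ?_⟩
  have hT1 : (1 : ℝ) ≤ T := by exact_mod_cast hT
  obtain ⟨h1, h2⟩ := h w (Fin.append z 0) (Fin.append 0 y) T hT
  set B2 := (Fintype.piFinset fun _ : Fin (n + s) => Sl.NF m T).filter fun α =>
    ∃ i, α i ∈ ((fun _ => {0}) : Fin (n + s) → Finset ℂ) i with hB2
  set X := {α : Fin (n + s) → ℂ | (∀ i, Sl.AInt m T (α i)) ∧
    BadE Λ δ d w (Fin.append z 0) (Fin.append 0 y) α} with hX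
  have hsub : {α : Fin (n + s) → ℂ | (∀ i, Sl.AInt m T (α i)) ∧ BadP Λ δ d w z y α} ⊆
      X ∪ (B2 : Set (Fin (n + s) → ℂ)) := by
    rintro α ⟨hα, hbad⟩
    by_cases h0 : ∃ i, α i = 0
    · right
      rw [hB2, Finset.mem_coe, Finset.mem_filter, Fintype.mem_piFinset]
      obtain ⟨i, hi⟩ := h0
      exact ⟨fun i => Sl.mem_NF.2 (hα i), i, Finset.mem_singleton.2 hi⟩
    · left
      push Not at h0
      exact ⟨hα, badP_badE Λ w z y α h0 hbad⟩
  have hfin : (X ∪ (B2 : Set (Fin (n + s) → ℂ))).Finite := h1.union (Finset.finite_toSet _)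
  refine ⟨hfin.subset hsub, ?_⟩
  have h4 := hfew T hT (fun _ => {0}) (fun _ => by simp)
  have h5 := (Set.ncard_le_ncard hsub hfin).trans (Set.ncard_union_le _ _)
  rw [Set.ncard_coe_finset] at h5
  have h6 : (T : ℝ) ^ ((((n + s) * Sl.Mm m : ℕ) : ℝ) - c) ≤ (T : ℝ) ^ ((((n + s) * Sl.Mm m : ℕ) : ℝ) - min c 1) :=
    Real.rpow_le_rpow_of_exponent_le hT1 (by linarith [min_le_left c 1])
  have h7 : (T : ℝ) ^ ((((n + s) * Sl.Mm m : ℕ) : ℝ) - 1) ≤ (T : ℝ) ^ ((((n + s) * Sl.Mm m : ℕ) : ℝ) - min c 1) :=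
    Real.rpow_le_rpow_of_exponent_le hT1 (by linarith [min_le_right c 1])
  calc ({α : Fin (n + s) → ℂ | (∀ i, Sl.AInt m T (α i)) ∧ BadP Λ δ d w z y α}.ncard : ℝ) ≤ (X.ncard : ℝ) + B2.card := by
        exact_mod_cast h5
    _ ≤ C * (T : ℝ) ^ ((((n + s) * Sl.Mm m : ℕ) : ℝ) - min c 1) +
        C₂ * (T : ℝ) ^ ((((n + s) * Sl.Mm m : ℕ) : ℝ) - min c 1) :=
        add_le_add (h2.trans (mul_le_mul_of_nonneg_left h6 hC)) (h4.trans (mul_le_mul_of_nonneg_left h7 hC₂))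
    _ = _ := by ring

end Pool.Agent.Y916.Sch
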