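import Pool.Agent.Y916.Sch.Ell

/-!
# Translates of the points of the Lie algebra of `(E × G_m)^n` by logarithms of algebraic points: almost all tuples
-/

set_option autoImplicit false

open Module
open scoped PeriodPair

namespace Pool.Agent.Y916.Sch

open Classical in
/-- few tuples with a member in a small set -/
theorem few (m n c₀ : ℕ) (hm : 1 ≤ m) : ∃ C : ℝ, 0 ≤ C ∧ ∀ T : ℕ, 1 ≤ T → ∀ F : Fin n → Finset ℂ,
    (∀ i, (F i).card ≤ c₀) →
    (((Fintype.piFinset fun _ : Fin n => Sl.NF m T).filter fun α => ∃ i, α i ∈ F i).card : ℝ) ≤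
      C * (T : ℝ) ^ (((n * Sl.Mm m : ℕ) : ℝ) - 1) := by
  set C₀ : ℝ := (3 * 2 ^ m) ^ m * m with hC₀
  have hC₀1 : 1 ≤ C₀ := by
    have h1 : (1 : ℝ) ≤ m := by exact_mod_cast hm
    have h2 : (1 : ℝ) ≤ 3 * 2 ^ m := by
      have : (1 : ℝ) ≤ 2 ^ m := one_le_pow₀ (by norm_num)
      linarith
    calc (1 : ℝ) = 1 * 1 := by ring
      _ ≤ (3 * 2 ^ m) ^ m * m := mul_le_mul (one_le_pow₀ h2) h1 (by norm_num) (by positivity)
  have hM : 1 ≤ Sl.Mm m := by
    rw [Sl.Mm_eq]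
    have : 2 ≤ m * (m + 1) := by nlinarith
    omega
  refine ⟨n * (C₀ ^ n * c₀), by positivity, fun T hT F hF => ?_⟩
  have hT1 : (1 : ℝ) ≤ T := by exact_mod_cast hT
  have hT0 : (0 : ℝ) < T := by linarith
  set Sm : Fin n → Finset ℂ := fun i => (Sl.NF m T).filter fun ξ => ξ ∈ F i with hSm
  have hsub : ((Fintype.piFinset fun _ : Fin n => Sl.NF m T).filter fun α => ∃ i, α i ∈ F i) ⊆
      Finset.univ.biUnion fun i : Fin n => Fintype.piFinset fun j : Fin n => if j = i then Sm i else Sl.NF m T := by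
    intro α hα
    obtain ⟨h1, i, h2⟩ := Finset.mem_filter.1 hα
    rw [Fintype.mem_piFinset] at h1
    rw [Finset.mem_biUnion]
    refine ⟨i, Finset.mem_univ _, ?_⟩
    rw [Fintype.mem_piFinset]
    intro j
    split_ifs with hj
    · subst hj
      exact Finset.mem_filter.2 ⟨h1 j, h2⟩
    · exact h1 j
  have hNF := Sl.card_NF m T hT
  have hone : ∀ i : Fin n, ((Fintype.piFinset fun j : Fin n => if j = i then Sm i else Sl.NF m T).card : ℝ) ≤
      C₀ ^ n * c₀ * (T : ℝ) ^ (((n * Sl.Mm m : ℕ) : ℝ) - 1) := by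
    intro i
    have hk : 1 ≤ n := i.pos
    rw [Fintype.card_piFinset, ← Finset.mul_prod_erase Finset.univ _ (Finset.mem_univ i)]
    have h1 : ∏ j ∈ Finset.univ.erase i, (if j = i then Sm i else Sl.NF m T).card = (Sl.NF m T).card ^ (n - 1) := by
      rw [Finset.prod_congr rfl (g := fun _ => (Sl.NF m T).card), Finset.prod_const, Finset.card_erase_of_mem
        (Finset.mem_univ i), Finset.card_univ, Fintype.card_fin]
      intro j hj
      rw [if_neg (Finset.ne_of_mem_erase hj)]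
    rw [h1, if_pos rfl, Nat.cast_mul, Nat.cast_pow]
    have hS : ((Sm i).card : ℝ) * T ≤ c₀ * (T : ℝ) ^ Sl.Mm m := by
      have h2 : ((Sm i).card : ℝ) ≤ c₀ := by
        have h3 : Sm i ⊆ F i := fun x hx => (Finset.mem_filter.1 hx).2
        exact_mod_cast (Finset.card_le_card h3).trans (hF i)
      exact mul_le_mul h2 (le_self_pow₀ hT1 (by omega)) hT0.le (by positivity)
    have h2 : (T : ℝ) ^ (((n * Sl.Mm m : ℕ) : ℝ) - 1) = (T : ℝ) ^ (n * Sl.Mm m) / T := by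
      rw [Real.rpow_sub hT0, Real.rpow_natCast, Real.rpow_one]
    rw [h2, ← mul_div_assoc, le_div_iff₀ hT0]
    have h3 : ((Sl.NF m T).card : ℝ) ^ (n - 1) ≤ (C₀ * (T : ℝ) ^ Sl.Mm m) ^ (n - 1) :=
      pow_le_pow_left₀ (Nat.cast_nonneg _) hNF _
    calc ((Sm i).card : ℝ) * ((Sl.NF m T).card : ℝ) ^ (n - 1) * T =
          ((Sm i).card * T) * ((Sl.NF m T).card : ℝ) ^ (n - 1) := by ring
      _ ≤ (c₀ * (T : ℝ) ^ Sl.Mm m) * (C₀ * (T : ℝ) ^ Sl.Mm m) ^ (n - 1) :=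
          mul_le_mul hS h3 (by positivity) (by positivity)
      _ ≤ C₀ * (c₀ * (T : ℝ) ^ Sl.Mm m) * (C₀ * (T : ℝ) ^ Sl.Mm m) ^ (n - 1) := by
          refine mul_le_mul_of_nonneg_right ?_ (by positivity)
          exact le_mul_of_one_le_left (by positivity) hC₀1
      _ = c₀ * (C₀ * (T : ℝ) ^ Sl.Mm m) ^ (n - 1 + 1) := by rw [pow_succ]; ring
      _ = C₀ ^ n * c₀ * (T : ℝ) ^ (n * Sl.Mm m) := by
          rw [Nat.sub_add_cancel hk, mul_pow, ← pow_mul, mul_comm (Sl.Mm m) n]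
          ring
  calc (((Fintype.piFinset fun _ : Fin n => Sl.NF m T).filter fun α => ∃ i, α i ∈ F i).card : ℝ)
      ≤ ∑ i : Fin n, ((Fintype.piFinset fun j : Fin n => if j = i then Sm i else Sl.NF m T).card : ℝ) := by
        exact_mod_cast (Finset.card_le_card hsub).trans Finset.card_biUnion_le
    _ ≤ ∑ _i : Fin n, C₀ ^ n * c₀ * (T : ℝ) ^ (((n * Sl.Mm m : ℕ) : ℝ) - 1) := Finset.sum_le_sum fun i _ => hone i
    _ = n * (C₀ ^ n * c₀) * (T : ℝ) ^ (((n * Sl.Mm m : ℕ) : ℝ) - 1) := by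
        rw [Finset.sum_const, Finset.card_univ, Fintype.card_fin, nsmul_eq_mul]
        ring

/-- the failure of `FrE` at a translate of `(z, s)` by a logarithm of the point `((α_i, β_i), α_i)` -/
def BadE (Λ : PeriodPair) (δ d : ℕ) {υ : Type} {n : ℕ} (w : υ → ℂ) (z s α : Fin n → ℂ) : Prop :=
  ∃ u t : Fin n → ℂ, (∀ i, u i ∉ Λ.lattice) ∧ (∀ i, u i - z i ∉ Λ.lattice) ∧ (∀ i, ℘[Λ] (u i - z i) = α i) ∧
    (∀ i, Complex.exp (t i - s i) = α i) ∧ ¬ FrE Λ δ d w u t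

theorem tupE (Λ : PeriodPair) (a b : ℚ) (ha : Λ.g₂ = a) (hb : Λ.g₃ = b) (n q m δ d : ℕ) (hm : 1 ≤ m) :
    ∃ c : ℝ, 0 < c ∧ ∃ C : ℝ, 0 ≤ C ∧ ∀ (w : Fin q → ℂ) (z s : Fin n → ℂ) (T : ℕ), 1 ≤ T →
      {α : Fin n → ℂ | (∀ i, Sl.AInt m T (α i)) ∧ BadE Λ δ d w z s α}.Finite ∧
      ({α : Fin n → ℂ | (∀ i, Sl.AInt m T (α i)) ∧ BadE Λ δ d w z s α}.ncard : ℝ) ≤
        C * (T : ℝ) ^ (((n * Sl.Mm m : ℕ) : ℝ) - c) := by
  classical
  obtain ⟨c, hc, C, hC, h⟩ := Pool.Agent.Y916.Sl.ellD Pool.Agent.Y916.Sl.tV Pool.Agent.Y916.Sl.tW Λ a b ha hb m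
    (fun _ : Fin 1 => 0) (fun i j _ => Subsingleton.elim i j) n δ (d * (2 * m) ^ (2 * n))
    ((q + n * 6 + 1) ^ ((5 * n + 1) * δ))
  obtain ⟨C₂, hC₂, hfew⟩ := few m n 4 hm
  refine ⟨min c 1, lt_min hc one_pos, C + C₂, by positivity, fun w z s T hT => ?_⟩
  have hT1 : (1 : ℝ) ≤ T := by exact_mod_cast hT
  set W : Submodule ℚ ℂ := Submodule.span ℚ (Set.range (cE1 Λ w z s)) with hW
  have hWf : Module.Finite ℚ W := Module.Finite.span_of_finite ℚ (Set.finite_range _)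
  have hWd : finrank ℚ W ≤ q + n * 6 + 1 := by
    refine (finrank_range_le_card _).trans ?_
    simp
  obtain ⟨hb1, hb2⟩ := Om.finrank_pow_le W ((5 * n + 1) * δ)
  obtain ⟨h1, h2⟩ := h (W ^ ((5 * n + 1) * δ)) hb1 (hb2.trans (Nat.pow_le_pow_left hWd _)) T hT
  -- the special values
  set f : Polynomial ℂ := Polynomial.C 4 * Polynomial.X ^ 3 - Polynomial.C (a : ℂ) * Polynomial.X -
    Polynomial.C (b : ℂ) with hf
  have hfd : f.natDegree ≤ 3 := by
    rw [hf]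
    compute_degree
  have hf0 : f ≠ 0 := by
    intro h0
    have h3 : f.coeff 3 = 4 := by
      rw [hf]
      simp [Polynomial.coeff_X, Polynomial.coeff_C]
    rw [h0, Polynomial.coeff_zero] at h3
    norm_num at h3
  set F : Fin n → Finset ℂ := fun i => insert (℘[Λ] (z i)) f.roots.toFinset with hF
  have hFc : ∀ i, (F i).card ≤ 4 := by
    intro i
    refine (Finset.card_insert_le _ _).trans ?_
    have h3 := (Multiset.toFinset_card_le f.roots).trans (Polynomial.card_roots' f)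
    omega
  set B2 := (Fintype.piFinset fun _ : Fin n => Sl.NF m T).filter fun α => ∃ i, α i ∈ F i with hB2
  set X := {α : Fin n → ℂ | (∀ i, Sl.AInt m T (α i)) ∧ ∃ p t : Fin n × Fin 1 → ℂ, (∀ q, p q ∉ Λ.lattice ∧
        ℘[Λ] (p q) = α q.1 + ((fun _ : Fin 1 => 0) q.2 : ℕ) ∧ Complex.exp (t q) = α q.1 + ((fun _ : Fin 1 => 0) q.2 : ℕ)) ∧
        Hy.RelL δ (d * (2 * m) ^ (2 * n)) (W ^ ((5 * n + 1) * δ))
          fun x : (Fin n × Fin 1) × Fin 3 => Hy.trip Λ (p x.1) (t x.1) x.2} with hX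
  have hsub : {α : Fin n → ℂ | (∀ i, Sl.AInt m T (α i)) ∧ BadE Λ δ d w z s α} ⊆ X ∪ (B2 : Set (Fin n → ℂ)) := by
    rintro α ⟨hα, u, t, hu, hp, hpα, ht, hfr⟩
    by_cases hsp : ∃ i, α i ∈ F i
    · right
      rw [hB2, Finset.mem_coe, Finset.mem_filter, Fintype.mem_piFinset]
      exact ⟨fun i => Sl.mem_NF.2 (hα i), hsp⟩
    · left
      push Not at hsp
      have hsp1 : ∀ i, 4 * α i ^ 3 - a * α i - b ≠ 0 := by
        intro i h0
        refine hsp i (Finset.mem_insert_of_mem ?_)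
        rw [Multiset.mem_toFinset, Polynomial.mem_roots hf0, Polynomial.IsRoot.def, hf]
        simpa using h0
      have hsp2 : ∀ i, z i ∉ Λ.lattice → ℘[Λ] (z i) ≠ α i := by
        intro i _ h0
        exact hsp i (by rw [hF, ← h0]; exact Finset.mem_insert_self _ _)
      have hrel := ell_rel Λ a b ha hb hm w z s α (fun i => by
        obtain ⟨K, ξ', h5, h6, h7, -⟩ := (hα i).pt hT1
        refine ⟨K, h5, h6, ?_⟩
        rw [← h7]
        exact ξ'.2) u t hu hp hpα ht hsp1 hsp2 hfr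
      refine ⟨hα, fun x => u x.1 - z x.1, fun x => t x.1 - s x.1, fun x => ⟨hp x.1, ?_, ?_⟩, ?_⟩
      · rw [hpα x.1]
        simp
      · rw [ht x.1]
        simp
      · obtain ⟨L, hL1, hL2, P, hP0, hPd, hPc, hPv⟩ := hrel
        let φ : Fin n × Fin 3 → (Fin n × Fin 1) × Fin 3 := fun x => ((x.1, 0), x.2)
        have hφ : Function.Injective φ := by
          rintro ⟨i, c⟩ ⟨j, c'⟩ h0
          simp only [φ, Prod.mk.injEq] at h0
          exact Prod.ext h0.1.1 h0.2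
        refine ⟨L, hL1, hL2, MvPolynomial.rename φ P, ?_, (MvPolynomial.totalDegree_rename_le _ _).trans hPd, ?_, ?_⟩
        · intro h0
          exact hP0 (MvPolynomial.rename_injective φ hφ (by rw [h0, map_zero]))
        · intro x
          by_cases hx : ∃ y, Finsupp.mapDomain φ y = x
          · obtain ⟨y, rfl⟩ := hx
            rw [MvPolynomial.coeff_rename_mapDomain φ hφ]
            exact hPc y
          · rw [MvPolynomial.coeff_rename_eq_zero φ P x (fun y hy => absurd ⟨y, hy⟩ hx)]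
            exact Submodule.zero_mem _
        · rw [MvPolynomial.aeval_rename, ← hPv]
          rfl
  have hfin : (X ∪ (B2 : Set (Fin n → ℂ))).Finite := h1.union (Finset.finite_toSet _)
  refine ⟨hfin.subset hsub, ?_⟩
  have h4 := hfew T hT F hFc
  have h5 := (Set.ncard_le_ncard hsub hfin).trans (Set.ncard_union_le _ _)
  rw [Set.ncard_coe_finset] at h5
  have h6 : (T : ℝ) ^ (((n * Sl.Mm m : ℕ) : ℝ) - c) ≤ (T : ℝ) ^ (((n * Sl.Mm m : ℕ) : ℝ) - min c 1) :=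
    Real.rpow_le_rpow_of_exponent_le hT1 (by linarith [min_le_left c 1])
  have h7 : (T : ℝ) ^ (((n * Sl.Mm m : ℕ) : ℝ) - 1) ≤ (T : ℝ) ^ (((n * Sl.Mm m : ℕ) : ℝ) - min c 1) :=
    Real.rpow_le_rpow_of_exponent_le hT1 (by linarith [min_le_right c 1])
  calc ({α : Fin n → ℂ | (∀ i, Sl.AInt m T (α i)) ∧ BadE Λ δ d w z s α}.ncard : ℝ) ≤ (X.ncard : ℝ) + B2.card := by
        exact_mod_cast h5
    _ ≤ C * (T : ℝ) ^ (((n * Sl.Mm m : ℕ) : ℝ) - min c 1) + C₂ * (T : ℝ) ^ (((n * Sl.Mm m : ℕ) : ℝ) - min c 1) :=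
        add_le_add (h2.trans (mul_le_mul_of_nonneg_left h6 hC)) (h4.trans (mul_le_mul_of_nonneg_left h7 hC₂))
    _ = _ := by ring

end Pool.Agent.Y916.Sch
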