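import Pool.Agent.Y916.Sch.EllW

/-!
# Translates of the points of the Lie algebra of `E^n` by logarithms of algebraic points: windows
-/

set_option autoImplicit false

open Module
open scoped PeriodPair Pointwise

namespace Pool.Agent.Y916.Sch

/-- the numbers `p_i, ζ(p_i)` -/
noncomputable def X2 (Λ : PeriodPair) {n : ℕ} (p : Fin n → ℂ) : Fin n × Fin 2 → ℂ :=
  fun a => ![p a.1, H667R3.zeta Λ (p a.1)] a.2

/-- the numbers `℘(p_i), ℘'(p_i)` -/
noncomputable def E2 (Λ : PeriodPair) {n : ℕ} (p : Fin n → ℂ) : Fin n × Fin 2 → ℂ :=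
  fun a => ![℘[Λ] (p a.1), ℘'[Λ] (p a.1)] a.2

def FrU (Λ : PeriodPair) (δ d : ℕ) {υ : Type} {n : ℕ} (w : υ → ℂ) (p : Fin n → ℂ) : Prop :=
  ∀ L : IntermediateField ℚ ℂ, FiniteDimensional ℚ L → finrank ℚ L ≤ d →
  ∀ P : MvPolynomial (υ ⊕ ((Fin n × Fin 2) ⊕ (Fin n × Fin 2))) L, P.totalDegree ≤ δ →
  MvPolynomial.aeval (Sum.elim w (Sum.elim (X2 Λ p) (E2 Λ p))) P = 0 →
  ∀ v : Fin n × Fin 2 → ℂ, MvPolynomial.aeval (Sum.elim w (Sum.elim v (E2 Λ p))) P = 0

/-- the coordinates of `E^n` in `(E × G_m)^n` -/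
def phi2 (n : ℕ) : Fin n × Fin 2 → Fin n × Fin 3 := fun a => (a.1, Fin.castSucc a.2)

theorem phi2_inj (n : ℕ) : Function.Injective (phi2 n) := by
  rintro ⟨i, c⟩ ⟨i', c'⟩ h
  simp only [phi2, Prod.mk.injEq] at h
  rw [h.1, Fin.castSucc_injective _ h.2]

theorem frE_frU (Λ : PeriodPair) {δ d : ℕ} {υ : Type} {n : ℕ} (w : υ → ℂ) (p t : Fin n → ℂ)
    (hFE : FrE Λ δ d w p t) : FrU Λ δ d w p := by
  intro L hL1 hL2 P hP1 hP2 v
  have hE : ∀ x, E3 Λ p t (phi2 n x) = E2 Λ p x := by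
    rintro ⟨i, c⟩
    fin_cases c
    · rfl
    · rfl
  have hX : ∀ x, X3 Λ p t (phi2 n x) = X2 Λ p x := by
    rintro ⟨i, c⟩
    fin_cases c
    · rfl
    · rfl
  have h1 := hFE L hL1 hL2 (MvPolynomial.rename (Sum.map id (Sum.map (phi2 n) (phi2 n))) P)
    ((MvPolynomial.totalDegree_rename_le _ _).trans hP1) (by
      rw [MvPolynomial.aeval_rename, ← hP2]
      congr 2
      funext x
      rcases x with x | x | x
      · rfl
      · exact hX x
      · exact hE x) (Function.extend (phi2 n) v 0)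
  rw [MvPolynomial.aeval_rename] at h1
  rw [← h1]
  congr 2
  funext x
  rcases x with x | x | x
  · rfl
  · exact ((phi2_inj n).extend_apply v 0 x).symm
  · exact (hE x).symm

/-- windows -/
theorem winU (Λ : PeriodPair) (a b : ℚ) (ha : Λ.g₂ = a) (hb : Λ.g₃ = b) (n q m A δ d : ℕ) :
    ∃ E : ℕ, ∀ (H : ℕ) (ξ : ℂ), ((H : ℝ) + 2) ^ E ≤ ‖ξ‖ → Al.Ht m A ξ → ∀ (w : Fin q → ℂ) (z : Fin n → ℂ),
      ∃ S : Finset ℕ, (S.card : Cardinal) ≤ ((5 * n + q + 4 : ℕ) : Cardinal) +
        Algebra.trdeg ℚ (IntermediateField.adjoin ℚ (Set.range (Hy.perV Λ))) ∧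
      ∀ g : Fin n → ℕ, Function.Injective g → (∀ i, 1 ≤ g i ∧ g i ≤ H ∧ g i ∉ S) →
        ∀ p : Fin n → ℂ, (∀ i, p i ∉ Λ.lattice ∧ p i - z i ∉ Λ.lattice ∧ ℘[Λ] (p i - z i) = ξ + g i) →
        FrU Λ δ d (Sum.elim w (Hy.perV Λ)) p := by
  classical
  rcases Nat.eq_zero_or_pos m with hm0 | hm1
  · refine ⟨1, fun H ξ hξ hHt w z => ?_⟩
    obtain ⟨p, h1, h2, h3, h4⟩ := hHt
    exfalso
    subst hm0
    rw [Polynomial.eq_C_of_natDegree_le_zero h2, Polynomial.aeval_C] at h4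
    have h5 : p.coeff 0 = 0 := by
      have : ((p.coeff 0 : ℤ) : ℂ) = 0 := h4
      exact_mod_cast this
    exact h1 (by rw [Polynomial.eq_C_of_natDegree_le_zero h2, h5, Polynomial.C_0])
  set e := (5 * n + 1) * δ with he
  obtain ⟨E, hE⟩ := Pool.Agent.Y916.Sl.ellW Pool.Agent.Y916.Sl.tV Pool.Agent.Y916.Sl.tW Λ a b ha hb n m A
    (d * (2 * m) ^ (2 * n)) (e + δ) (q + n * 4)
  refine ⟨E + 1, fun H ξ hξ hHt w z => ?_⟩
  have hH0 : (0 : ℝ) ≤ H := Nat.cast_nonneg H
  have hξE : ((H : ℝ) + 2) ^ E ≤ ‖ξ‖ := (pow_le_pow_right₀ (by linarith) (by omega)).trans hξ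
  have hξH : (H : ℝ) < ‖ξ‖ := by
    refine lt_of_lt_of_le ?_ hξ
    calc (H : ℝ) < (H : ℝ) + 2 := by linarith
      _ ≤ ((H : ℝ) + 2) ^ (E + 1) := le_self_pow₀ (by linarith) (by omega)
  -- the constants
  set υ := Fin q ⊕ Fin n × Fin 4 with hυ
  have hcard : Fintype.card υ = q + n * 4 := by simp [hυ]
  let eqv : υ ≃ Fin (q + n * 4) := Fintype.equivFinOfCardEq hcard
  set w₁ : υ → ℂ := Sum.elim w fun c => ![z c.1, ℘[Λ] (z c.1), ℘'[Λ] (z c.1), zt Λ (z c.1)] c.2 with hw₁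
  obtain ⟨S₁, hS₁, hwin⟩ := hE H ξ hξE hHt fun j => w₁ (eqv.symm j)
  -- the special values
  set f : Polynomial ℂ := Polynomial.C 4 * Polynomial.X ^ 3 - Polynomial.C (a : ℂ) * Polynomial.X -
    Polynomial.C (b : ℂ) with hf
  have hfd : f.natDegree ≤ 3 := by
    rw [hf]
    compute_degree
  have hf0 : f ≠ 0 := by
    intro h0
    have h3 : f.coeff 3 = 4 := by
      rw [hf]
      simp [Polynomial.coeff_X, Polynomial.coeff_C]
    rw [h0, Polynomial.coeff_zero] at h3
    norm_num at h3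
  set F : Finset ℂ := f.roots.toFinset ∪ Finset.univ.image fun i => ℘[Λ] (z i) with hF
  have hFc : F.card ≤ 3 + n := by
    refine (Finset.card_union_le _ _).trans (add_le_add ?_ ?_)
    · exact ((Multiset.toFinset_card_le f.roots).trans (Polynomial.card_roots' f)).trans hfd
    · exact Finset.card_image_le.trans (by simp)
  set S₂ : Finset ℕ := (Finset.range (H + 1)).filter fun g => ξ + (g : ℂ) ∈ F with hS₂
  have hS₂c : S₂.card ≤ 3 + n := by
    refine le_trans ?_ hFc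
    refine Finset.card_le_card_of_injOn (fun g : ℕ => ξ + (g : ℂ)) (fun g hg => (Finset.mem_filter.1 hg).2) ?_
    intro g _ g' _ h
    have h' : ξ + (g : ℂ) = ξ + (g' : ℂ) := h
    exact_mod_cast add_left_cancel h'
  refine ⟨S₁ ∪ S₂, ?_, fun g hinj hg p hpp => ?_⟩
  · have h1 : ((S₁ ∪ S₂).card : Cardinal) ≤ (S₁.card : Cardinal) + (S₂.card : Cardinal) := by
      exact_mod_cast Finset.card_union_le S₁ S₂
    have h2 : (S₂.card : Cardinal) ≤ ((3 + n : ℕ) : Cardinal) := by exact_mod_cast hS₂c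
    refine h1.trans ((add_le_add hS₁ h2).trans (le_of_eq ?_))
    push_cast
    ring
  · have hg0 : ∀ i, ξ + (g i : ℂ) ≠ 0 := by
      intro i h0
      have h1 : ξ = -(g i : ℂ) := eq_neg_of_add_eq_zero_left h0
      have h2 : ‖ξ‖ = g i := by rw [h1, norm_neg, Complex.norm_natCast]
      have h3 : ((g i : ℕ) : ℝ) ≤ H := by exact_mod_cast (hg i).2.1
      linarith
    by_contra hfr0
    set t : Fin n → ℂ := fun i => Complex.log (ξ + (g i : ℂ)) with htdef
    have hfr : ¬ FrE Λ δ d (Sum.elim w (Hy.perV Λ)) p t := fun h => hfr0 (frE_frU Λ _ p t h)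
    have ht : ∀ i, Complex.exp (t i - (0 : Fin n → ℂ) i) = ξ + (g i : ℂ) := by
      intro i
      rw [Pi.zero_apply, sub_zero]
      exact Complex.exp_log (hg0 i)
    have hu := fun i => (hpp i).1
    have hp := fun i => (hpp i).2.1
    have hpα := fun i => (hpp i).2.2
    have hξd : IsIntegral ℚ ξ ∧ (minpoly ℚ ξ).natDegree ≤ m := by
      obtain ⟨p, h1, h2, h3, h4⟩ := hHt
      exact deg_of_root h1 h2 h4
    have hgF : ∀ i, ξ + (g i : ℂ) ∉ F := by
      intro i hi
      refine (hg i).2.2 (Finset.mem_union_right _ (Finset.mem_filter.2 ⟨?_, hi⟩))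
      rw [Finset.mem_range]
      have := (hg i).2.1
      omega
    have hrel := ell_rel Λ a b ha hb hm1 (Sum.elim w (Hy.perV Λ)) z 0 (fun i => ξ + (g i : ℂ)) (fun i => by
      have hf1 : FiniteDimensional ℚ (IntermediateField.adjoin ℚ {ξ}) :=
        IntermediateField.adjoin.finiteDimensional hξd.1
      refine ⟨IntermediateField.adjoin ℚ {ξ}, hf1, ?_, ?_⟩
      · rw [IntermediateField.adjoin.finrank hξd.1]
        exact hξd.2
      · exact add_mem (IntermediateField.mem_adjoin_simple_self ℚ ξ) (natCast_mem _ _)) p t hu hp hpα ht (by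
      intro i h0
      refine hgF i (Finset.mem_union_left _ ?_)
      rw [Multiset.mem_toFinset, Polynomial.mem_roots hf0, Polynomial.IsRoot.def, hf]
      simpa using h0) (by
      intro i _ h0
      refine hgF i (Finset.mem_union_right _ ?_)
      rw [← h0]
      exact Finset.mem_image_of_mem (fun i => ℘[Λ] (z i)) (Finset.mem_univ i)) hfr
    obtain ⟨K, hK1, hK2, P, hP0, hPd, hPc, hPv⟩ := hrel
    obtain ⟨Q, hQ1, hQ2⟩ := lift_poly K (cE1 Λ (Sum.elim w (Hy.perV Λ)) z 0) e δ P hPd hPc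
    -- remove the constant `1`
    let h : Option ((Fin q ⊕ Fin 5) ⊕ Fin n × Fin 6) ⊕ Fin n × Fin 3 →
        MvPolynomial ((Fin (q + n * 4) ⊕ Fin 5) ⊕ Fin n × Fin 3) K :=
      Sum.elim (fun o => o.elim 1 (Sum.elim (Sum.elim
        (fun j => MvPolynomial.X (Sum.inl (Sum.inl (eqv (Sum.inl j)))))
        (fun j => MvPolynomial.X (Sum.inl (Sum.inr j)))) fun c => ![MvPolynomial.X (Sum.inl (Sum.inl (eqv
          (Sum.inr (c.1, 0))))), 0, MvPolynomial.X (Sum.inl (Sum.inl (eqv (Sum.inr (c.1, 1))))),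
          MvPolynomial.X (Sum.inl (Sum.inl (eqv (Sum.inr (c.1, 2))))),
          MvPolynomial.X (Sum.inl (Sum.inl (eqv (Sum.inr (c.1, 3))))), 1] c.2))
        fun c => MvPolynomial.X (Sum.inr c)
    have hhd : ∀ c, (h c).totalDegree ≤ 1 := by
      rintro ((_ | (j | j) | ⟨i, c⟩) | c)
      · show (1 : MvPolynomial ((Fin (q + n * 4) ⊕ Fin 5) ⊕ Fin n × Fin 3) K).totalDegree ≤ 1
        rw [MvPolynomial.totalDegree_one]
        exact Nat.zero_le _
      · exact (MvPolynomial.totalDegree_X _).le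
      · exact (MvPolynomial.totalDegree_X _).le
      · fin_cases c
        · exact (MvPolynomial.totalDegree_X _).le
        · show (0 : MvPolynomial ((Fin (q + n * 4) ⊕ Fin 5) ⊕ Fin n × Fin 3) K).totalDegree ≤ 1
          rw [MvPolynomial.totalDegree_zero]
          exact Nat.zero_le _
        · exact (MvPolynomial.totalDegree_X _).le
        · exact (MvPolynomial.totalDegree_X _).le
        · exact (MvPolynomial.totalDegree_X _).le
        · show (1 : MvPolynomial ((Fin (q + n * 4) ⊕ Fin 5) ⊕ Fin n × Fin 3) K).totalDegree ≤ 1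
          rw [MvPolynomial.totalDegree_one]
          exact Nat.zero_le _
      · exact (MvPolynomial.totalDegree_X _).le
    have hev : ∀ y : Fin n × Fin 3 → ℂ, MvPolynomial.aeval
        (Sum.elim (Sum.elim (fun j => w₁ (eqv.symm j)) (Hy.perV Λ)) y) (MvPolynomial.aeval h Q) =
        MvPolynomial.aeval (Sum.elim (cE1 Λ (Sum.elim w (Hy.perV Λ)) z 0) y) Q := by
      intro y
      have h3 : (MvPolynomial.aeval (Sum.elim (Sum.elim (fun j => w₁ (eqv.symm j)) (Hy.perV Λ)) y) :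
          MvPolynomial ((Fin (q + n * 4) ⊕ Fin 5) ⊕ Fin n × Fin 3) K →ₐ[K] ℂ).comp (MvPolynomial.aeval h) =
          MvPolynomial.aeval (Sum.elim (cE1 Λ (Sum.elim w (Hy.perV Λ)) z 0) y) := by
        refine MvPolynomial.algHom_ext fun c => ?_
        rcases c with (_ | (j | j) | ⟨i, c⟩) | c
        · simp [h, cE1]
        · simp [h, cE1, cE, hw₁]
        · simp [h, cE1, cE]
        · fin_cases c <;> simp [h, cE1, cE, hw₁]
        · simp [h]
      exact DFunLike.congr_fun h3 Q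
    have hdeg : (MvPolynomial.aeval h Q).totalDegree ≤ e + δ := by
      rw [MvPolynomial.aeval_def, MvPolynomial.eval₂_eq]
      refine MvPolynomial.totalDegree_finsetSum_le fun t ht => ?_
      have h3 : algebraMap K (MvPolynomial ((Fin (q + n * 4) ⊕ Fin 5) ⊕ Fin n × Fin 3) K) (Q.coeff t) =
        MvPolynomial.C (Q.coeff t) := rfl
      rw [h3]
      refine (MvPolynomial.totalDegree_mul _ _).trans ?_
      rw [MvPolynomial.totalDegree_C, zero_add]
      refine (MvPolynomial.totalDegree_finset_prod _ _).trans ?_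
      refine le_trans (Finset.sum_le_sum fun i _ => ?_) ((MvPolynomial.le_totalDegree ht).trans hQ1)
      refine (MvPolynomial.totalDegree_pow _ _).trans ?_
      exact (Nat.mul_le_mul_left _ (hhd i)).trans (by rw [mul_one])
    have hid := hwin g hinj (fun i => ⟨(hg i).1, (hg i).2.1, fun h => (hg i).2.2 (Finset.mem_union_left _ h)⟩)
      (fun i => p i - z i) (fun i => t i - (0 : Fin n → ℂ) i) (fun i => ⟨hp i, hpα i, ht i⟩) K hK1 hK2 (MvPolynomial.aeval h Q) hdeg (by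
        rw [hev, hQ2]
        exact hPv)
    apply hP0
    refine MvPolynomial.funext fun y => ?_
    rw [map_zero]
    have h4 := congrArg (MvPolynomial.aeval (R := ℂ) y) hid
    rw [map_zero, Af.eval_sub, hev, hQ2] at h4
    exact h4

end Pool.Agent.Y916.Sch
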