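import Pool.Agent.Y916.Sch.EllT

/-!
# Translates of the points of the Lie algebra of `(E × G_m)^n` by logarithms of algebraic points: windows
-/

set_option autoImplicit false

open Module
open scoped PeriodPair Pointwise

namespace Pool.Agent.Y916.Sch

/-- an element of the span of the products of `e` elements is a polynomial of degree at most `e` in them -/
theorem lift_const {υ : Type} [Fintype υ] (K : IntermediateField ℚ ℂ) (f : υ → ℂ) (e : ℕ) (c : ℂ)
    (hc : c ∈ Submodule.span K (((Submodule.span ℚ (Set.range f)) ^ e : Submodule ℚ ℂ) : Set ℂ)) :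
    ∃ R : MvPolynomial υ K, R.totalDegree ≤ e ∧ MvPolynomial.aeval f R = c := by
  classical
  have key : ∀ e : ℕ, ∀ x ∈ (Set.range f) ^ e, ∃ R : MvPolynomial υ K, R.totalDegree ≤ e ∧ MvPolynomial.aeval f R = x := by
    intro e
    induction e with
    | zero =>
      intro x hx
      rw [pow_zero, Set.mem_one] at hx
      exact ⟨1, by rw [MvPolynomial.totalDegree_one], by rw [map_one, hx]⟩
    | succ e ih =>
      intro x hx
      rw [pow_succ, Set.mem_mul] at hx
      obtain ⟨y, hy, _, ⟨j, rfl⟩, rfl⟩ := hx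
      obtain ⟨R, hR1, hR2⟩ := ih y hy
      refine ⟨R * MvPolynomial.X j, (MvPolynomial.totalDegree_mul _ _).trans
        (add_le_add hR1 (MvPolynomial.totalDegree_X _).le), ?_⟩
      rw [map_mul, hR2, MvPolynomial.aeval_X]
  rw [Submodule.span_pow] at hc
  have hle : Submodule.span K ((Submodule.span ℚ ((Set.range f) ^ e) : Submodule ℚ ℂ) : Set ℂ) ≤
      Submodule.span K ((Set.range f) ^ e) := by
    rw [Submodule.span_le]
    intro x hx
    refine Submodule.span_induction (p := fun x _ => x ∈ Submodule.span K ((Set.range f) ^ e)) ?_ ?_ ?_ ?_ hx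
    · intro x hx
      exact Submodule.subset_span hx
    · exact Submodule.zero_mem _
    · intro x y _ _ hx hy
      exact Submodule.add_mem _ hx hy
    · intro a x _ hx
      have : a • x = (algebraMap ℚ K a) • x := by
        rw [algebraMap_smul]
      rw [this]
      exact Submodule.smul_mem _ _ hx
  refine Submodule.span_induction (p := fun x _ => ∃ R : MvPolynomial υ K, R.totalDegree ≤ e ∧
    MvPolynomial.aeval f R = x) ?_ ?_ ?_ ?_ (hle hc)
  · intro x hx
    exact key e x hx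
  · exact ⟨0, by rw [MvPolynomial.totalDegree_zero]; exact Nat.zero_le _, map_zero _⟩
  · rintro x y _ _ ⟨R, hR1, hR2⟩ ⟨R', hR1', hR2'⟩
    exact ⟨R + R', (MvPolynomial.totalDegree_add _ _).trans (max_le hR1 hR1'), by rw [map_add, hR2, hR2']⟩
  · rintro a x _ ⟨R, hR1, hR2⟩
    refine ⟨MvPolynomial.C a * R, (MvPolynomial.totalDegree_mul _ _).trans ?_, ?_⟩
    · rw [MvPolynomial.totalDegree_C, zero_add]
      exact hR1
    · rw [map_mul, MvPolynomial.aeval_C, hR2, Algebra.smul_def]

theorem lift_poly {υ κ : Type} [Fintype υ] (K : IntermediateField ℚ ℂ) (f : υ → ℂ) (e δ : ℕ)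
    (P : MvPolynomial κ ℂ) (hP : P.totalDegree ≤ δ)
    (hc : ∀ s, P.coeff s ∈ Submodule.span K (((Submodule.span ℚ (Set.range f)) ^ e : Submodule ℚ ℂ) : Set ℂ)) :
    ∃ Q : MvPolynomial (υ ⊕ κ) K, Q.totalDegree ≤ e + δ ∧
      ∀ y : κ → ℂ, MvPolynomial.aeval (Sum.elim f y) Q = MvPolynomial.aeval y P := by
  classical
  choose R hR1 hR2 using fun s => lift_const K f e (P.coeff s) (hc s)
  refine ⟨∑ s ∈ P.support, MvPolynomial.rename Sum.inl (R s) *
    ∏ i ∈ s.support, MvPolynomial.X (Sum.inr i) ^ s i, ?_, fun y => ?_⟩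
  · refine MvPolynomial.totalDegree_finsetSum_le fun s hs => ?_
    refine (MvPolynomial.totalDegree_mul _ _).trans (add_le_add ((MvPolynomial.totalDegree_rename_le _ _).trans (hR1 s)) ?_)
    refine (MvPolynomial.totalDegree_finset_prod _ _).trans ?_
    refine le_trans (Finset.sum_le_sum fun i _ => ?_) ((MvPolynomial.le_totalDegree hs).trans hP)
    refine (MvPolynomial.totalDegree_pow _ _).trans ?_
    rw [MvPolynomial.totalDegree_X, mul_one]
  · rw [map_sum, MvPolynomial.aeval_def (σ := κ), MvPolynomial.eval₂_eq]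
    refine Finset.sum_congr rfl fun s _ => ?_
    rw [map_mul, MvPolynomial.aeval_rename, map_prod]
    have h1 : MvPolynomial.aeval (Sum.elim f y ∘ Sum.inl) (R s) = P.coeff s := hR2 s
    rw [h1]
    refine congrArg₂ _ rfl (Finset.prod_congr rfl fun i _ => ?_)
    rw [map_pow, MvPolynomial.aeval_X]
    rfl

/-- windows -/
theorem winE (Λ : PeriodPair) (a b : ℚ) (ha : Λ.g₂ = a) (hb : Λ.g₃ = b) (n q m A δ d : ℕ) :
    ∃ E : ℕ, ∀ (H : ℕ) (ξ : ℂ), ((H : ℝ) + 2) ^ E ≤ ‖ξ‖ → Al.Ht m A ξ → ∀ (w : Fin q → ℂ) (z s : Fin n → ℂ),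
      ∃ S : Finset ℕ, (S.card : Cardinal) ≤ ((7 * n + q + 4 : ℕ) : Cardinal) +
        Algebra.trdeg ℚ (IntermediateField.adjoin ℚ (Set.range (Hy.perV Λ))) ∧
      ∀ g : Fin n → ℕ, Function.Injective g → (∀ i, 1 ≤ g i ∧ g i ≤ H ∧ g i ∉ S) →
        ¬ BadE Λ δ d (Sum.elim w (Hy.perV Λ)) z s fun i => ξ + g i := by
  classical
  rcases Nat.eq_zero_or_pos m with hm0 | hm1
  · refine ⟨1, fun H ξ hξ hHt w z s => ?_⟩
    obtain ⟨p, h1, h2, h3, h4⟩ := hHt
    exfalso
    subst hm0
    rw [Polynomial.eq_C_of_natDegree_le_zero h2, Polynomial.aeval_C] at h4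
    have h5 : p.coeff 0 = 0 := by
      have : ((p.coeff 0 : ℤ) : ℂ) = 0 := h4
      exact_mod_cast this
    exact h1 (by rw [Polynomial.eq_C_of_natDegree_le_zero h2, h5, Polynomial.C_0])
  set e := (5 * n + 1) * δ with he
  obtain ⟨E, hE⟩ := Pool.Agent.Y916.Sl.ellW Pool.Agent.Y916.Sl.tV Pool.Agent.Y916.Sl.tW Λ a b ha hb n m A
    (d * (2 * m) ^ (2 * n)) (e + δ) (q + n * 6)
  refine ⟨E, fun H ξ hξ hHt w z s => ?_⟩
  -- the constants
  set υ := Fin q ⊕ Fin n × Fin 6 with hυ
  have hcard : Fintype.card υ = q + n * 6 := by simp [hυ]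
  let eqv : υ ≃ Fin (q + n * 6) := Fintype.equivFinOfCardEq hcard
  set w₁ : υ → ℂ := cE Λ w z s with hw₁
  obtain ⟨S₁, hS₁, hwin⟩ := hE H ξ hξ hHt fun j => w₁ (eqv.symm j)
  -- the special values
  set f : Polynomial ℂ := Polynomial.C 4 * Polynomial.X ^ 3 - Polynomial.C (a : ℂ) * Polynomial.X -
    Polynomial.C (b : ℂ) with hf
  have hfd : f.natDegree ≤ 3 := by
    rw [hf]
    compute_degree
  have hf0 : f ≠ 0 := by
    intro h0
    have h3 : f.coeff 3 = 4 := by
      rw [hf]
      simp [Polynomial.coeff_X, Polynomial.coeff_C]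
    rw [h0, Polynomial.coeff_zero] at h3
    norm_num at h3
  set F : Finset ℂ := f.roots.toFinset ∪ Finset.univ.image fun i => ℘[Λ] (z i) with hF
  have hFc : F.card ≤ 3 + n := by
    refine (Finset.card_union_le _ _).trans (add_le_add ?_ ?_)
    · exact ((Multiset.toFinset_card_le f.roots).trans (Polynomial.card_roots' f)).trans hfd
    · exact Finset.card_image_le.trans (by simp)
  set S₂ : Finset ℕ := (Finset.range (H + 1)).filter fun g => ξ + (g : ℂ) ∈ F with hS₂
  have hS₂c : S₂.card ≤ 3 + n := by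
    refine le_trans ?_ hFc
    refine Finset.card_le_card_of_injOn (fun g : ℕ => ξ + (g : ℂ)) (fun g hg => (Finset.mem_filter.1 hg).2) ?_
    intro g _ g' _ h
    have h' : ξ + (g : ℂ) = ξ + (g' : ℂ) := h
    exact_mod_cast add_left_cancel h'
  refine ⟨S₁ ∪ S₂, ?_, fun g hinj hg hbad => ?_⟩
  · have h1 : ((S₁ ∪ S₂).card : Cardinal) ≤ (S₁.card : Cardinal) + (S₂.card : Cardinal) := by
      exact_mod_cast Finset.card_union_le S₁ S₂
    have h2 : (S₂.card : Cardinal) ≤ ((3 + n : ℕ) : Cardinal) := by exact_mod_cast hS₂c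
    refine h1.trans ((add_le_add hS₁ h2).trans (le_of_eq ?_))
    push_cast
    ring
  · obtain ⟨u, t, hu, hp, hpα, ht, hfr⟩ := hbad
    have hξd : IsIntegral ℚ ξ ∧ (minpoly ℚ ξ).natDegree ≤ m := by
      obtain ⟨p, h1, h2, h3, h4⟩ := hHt
      exact deg_of_root h1 h2 h4
    have hgF : ∀ i, ξ + (g i : ℂ) ∉ F := by
      intro i hi
      refine (hg i).2.2 (Finset.mem_union_right _ (Finset.mem_filter.2 ⟨?_, hi⟩))
      rw [Finset.mem_range]
      have := (hg i).2.1
      omega
    have hrel := ell_rel Λ a b ha hb hm1 (Sum.elim w (Hy.perV Λ)) z s (fun i => ξ + (g i : ℂ)) (fun i => by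
      have hf1 : FiniteDimensional ℚ (IntermediateField.adjoin ℚ {ξ}) :=
        IntermediateField.adjoin.finiteDimensional hξd.1
      refine ⟨IntermediateField.adjoin ℚ {ξ}, hf1, ?_, ?_⟩
      · rw [IntermediateField.adjoin.finrank hξd.1]
        exact hξd.2
      · exact add_mem (IntermediateField.mem_adjoin_simple_self ℚ ξ) (natCast_mem _ _)) u t hu hp hpα ht (by
      intro i h0
      refine hgF i (Finset.mem_union_left _ ?_)
      rw [Multiset.mem_toFinset, Polynomial.mem_roots hf0, Polynomial.IsRoot.def, hf]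
      simpa using h0) (by
      intro i _ h0
      refine hgF i (Finset.mem_union_right _ ?_)
      rw [← h0]
      exact Finset.mem_image_of_mem (fun i => ℘[Λ] (z i)) (Finset.mem_univ i)) hfr
    obtain ⟨K, hK1, hK2, P, hP0, hPd, hPc, hPv⟩ := hrel
    obtain ⟨Q, hQ1, hQ2⟩ := lift_poly K (cE1 Λ (Sum.elim w (Hy.perV Λ)) z s) e δ P hPd hPc
    -- remove the constant `1`
    let h : Option ((Fin q ⊕ Fin 5) ⊕ Fin n × Fin 6) ⊕ Fin n × Fin 3 →
        MvPolynomial ((Fin (q + n * 6) ⊕ Fin 5) ⊕ Fin n × Fin 3) K :=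
      Sum.elim (fun o => o.elim 1 (Sum.elim (Sum.elim
        (fun j => MvPolynomial.X (Sum.inl (Sum.inl (eqv (Sum.inl j)))))
        (fun j => MvPolynomial.X (Sum.inl (Sum.inr j)))) fun c => MvPolynomial.X (Sum.inl (Sum.inl (eqv (Sum.inr c))))))
        fun c => MvPolynomial.X (Sum.inr c)
    have hhd : ∀ c, (h c).totalDegree ≤ 1 := by
      rintro ((_ | (j | j) | c) | c)
      · show (1 : MvPolynomial ((Fin (q + n * 6) ⊕ Fin 5) ⊕ Fin n × Fin 3) K).totalDegree ≤ 1
        rw [MvPolynomial.totalDegree_one]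
        exact Nat.zero_le _
      · exact (MvPolynomial.totalDegree_X _).le
      · exact (MvPolynomial.totalDegree_X _).le
      · exact (MvPolynomial.totalDegree_X _).le
      · exact (MvPolynomial.totalDegree_X _).le
    have hev : ∀ y : Fin n × Fin 3 → ℂ, MvPolynomial.aeval
        (Sum.elim (Sum.elim (fun j => w₁ (eqv.symm j)) (Hy.perV Λ)) y) (MvPolynomial.aeval h Q) =
        MvPolynomial.aeval (Sum.elim (cE1 Λ (Sum.elim w (Hy.perV Λ)) z s) y) Q := by
      intro y
      have h3 : (MvPolynomial.aeval (Sum.elim (Sum.elim (fun j => w₁ (eqv.symm j)) (Hy.perV Λ)) y) :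
          MvPolynomial ((Fin (q + n * 6) ⊕ Fin 5) ⊕ Fin n × Fin 3) K →ₐ[K] ℂ).comp (MvPolynomial.aeval h) =
          MvPolynomial.aeval (Sum.elim (cE1 Λ (Sum.elim w (Hy.perV Λ)) z s) y) := by
        refine MvPolynomial.algHom_ext fun c => ?_
        rcases c with (_ | (j | j) | c) | c
        · simp [h, cE1]
        · simp [h, cE1, cE, hw₁]
        · simp [h, cE1, cE]
        · simp [h, cE1, cE, hw₁]
        · simp [h]
      exact DFunLike.congr_fun h3 Q
    have hdeg : (MvPolynomial.aeval h Q).totalDegree ≤ e + δ := by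
      rw [MvPolynomial.aeval_def, MvPolynomial.eval₂_eq]
      refine MvPolynomial.totalDegree_finsetSum_le fun t ht => ?_
      have h3 : algebraMap K (MvPolynomial ((Fin (q + n * 6) ⊕ Fin 5) ⊕ Fin n × Fin 3) K) (Q.coeff t) =
        MvPolynomial.C (Q.coeff t) := rfl
      rw [h3]
      refine (MvPolynomial.totalDegree_mul _ _).trans ?_
      rw [MvPolynomial.totalDegree_C, zero_add]
      refine (MvPolynomial.totalDegree_finset_prod _ _).trans ?_
      refine le_trans (Finset.sum_le_sum fun i _ => ?_) ((MvPolynomial.le_totalDegree ht).trans hQ1)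
      refine (MvPolynomial.totalDegree_pow _ _).trans ?_
      exact (Nat.mul_le_mul_left _ (hhd i)).trans (by rw [mul_one])
    have hid := hwin g hinj (fun i => ⟨(hg i).1, (hg i).2.1, fun h => (hg i).2.2 (Finset.mem_union_left _ h)⟩)
      (fun i => u i - z i) (fun i => t i - s i) (fun i => ⟨hp i, hpα i, ht i⟩) K hK1 hK2 (MvPolynomial.aeval h Q) hdeg (by
        rw [hev, hQ2]
        exact hPv)
    apply hP0
    refine MvPolynomial.funext fun y => ?_
    rw [map_zero]
    have h4 := congrArg (MvPolynomial.aeval (R := ℂ) y) hid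
    rw [map_zero, Af.eval_sub, hev, hQ2] at h4
    exact h4

end Pool.Agent.Y916.Sch
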