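import Pool.Agent.Y916.Sch.EllP
import Pool.Agent.Y916.Sch.EllW

/-!
# Translates of the points of the Lie algebra of `E^n × G_m^s` by logarithms of algebraic points: windows
-/

set_option autoImplicit false

open Module
open scoped PeriodPair Pointwise

namespace Pool.Agent.Y916.Sch

/-- windows -/
theorem winV (Λ : PeriodPair) (a b : ℚ) (ha : Λ.g₂ = a) (hb : Λ.g₃ = b) (n s q m A δ d : ℕ) :
    ∃ E : ℕ, ∀ (H : ℕ) (ξ : ℂ), ((H : ℝ) + 2) ^ E ≤ ‖ξ‖ → Al.Ht m A ξ → ∀ (w : Fin q → ℂ) (z : Fin n → ℂ) (y : Fin s → ℂ),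
      ∃ S : Finset ℕ, (S.card : Cardinal) ≤ ((5 * n + 2 * s + q + 4 : ℕ) : Cardinal) +
        Algebra.trdeg ℚ (IntermediateField.adjoin ℚ (Set.range (Hy.perV Λ))) ∧
      ∀ g : Fin (n + s) → ℕ, Function.Injective g → (∀ i, 1 ≤ g i ∧ g i ≤ H ∧ g i ∉ S) →
        ¬ BadP Λ δ d (Sum.elim w (Hy.perV Λ)) z y fun i => ξ + g i := by
  classical
  rcases Nat.eq_zero_or_pos m with hm0 | hm1
  · refine ⟨1, fun H ξ hξ hHt w z y => ?_⟩
    obtain ⟨p, h1, h2, h3, h4⟩ := hHt
    exfalso
    subst hm0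
    rw [Polynomial.eq_C_of_natDegree_le_zero h2, Polynomial.aeval_C] at h4
    have h5 : p.coeff 0 = 0 := by
      have : ((p.coeff 0 : ℤ) : ℂ) = 0 := h4
      exact_mod_cast this
    exact h1 (by rw [Polynomial.eq_C_of_natDegree_le_zero h2, h5, Polynomial.C_0])
  set e := (5 * (n + s) + 1) * δ with he
  obtain ⟨E, hE⟩ := Pool.Agent.Y916.Sl.ellW Pool.Agent.Y916.Sl.tV Pool.Agent.Y916.Sl.tW Λ a b ha hb (n + s) m A
    (d * (2 * m) ^ (2 * (n + s))) (e + δ) (q + (n * 4 + s * 2))
  refine ⟨E + 1, fun H ξ hξ hHt w z y => ?_⟩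
  have hH0 : (0 : ℝ) ≤ H := Nat.cast_nonneg H
  have hξE : ((H : ℝ) + 2) ^ E ≤ ‖ξ‖ := (pow_le_pow_right₀ (by linarith) (by omega)).trans hξ
  have hξH : (H : ℝ) < ‖ξ‖ := by
    refine lt_of_lt_of_le ?_ hξ
    calc (H : ℝ) < (H : ℝ) + 2 := by linarith
      _ ≤ ((H : ℝ) + 2) ^ (E + 1) := le_self_pow₀ (by linarith) (by omega)
  -- the constants
  set υ := Fin q ⊕ (Fin n × Fin 4 ⊕ Fin s × Fin 2) with hυ
  have hcard : Fintype.card υ = q + (n * 4 + s * 2) := by simp [hυ]
  let eqv : υ ≃ Fin (q + (n * 4 + s * 2)) := Fintype.equivFinOfCardEq hcard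
  set w₁ : υ → ℂ := Sum.elim w (Sum.elim (fun c => ![z c.1, ℘[Λ] (z c.1), ℘'[Λ] (z c.1), zt Λ (z c.1)] c.2)
    fun c => ![y c.1, Complex.exp (y c.1)] c.2) with hw₁
  obtain ⟨S₁, hS₁, hwin⟩ := hE H ξ hξE hHt fun j => w₁ (eqv.symm j)
  have hz0 : zt Λ 0 = 0 := by
    rw [zt, if_pos (Submodule.zero_mem _), H667R3.eta_zero]
  have hp0 : ℘[Λ] (0 : ℂ) = 0 := PeriodPair.weierstrassP_zero Λ
  have hp0' : ℘'[Λ] (0 : ℂ) = 0 := PeriodPair.derivWeierstrassP_zero Λ
  -- the special values
  set f : Polynomial ℂ := Polynomial.C 4 * Polynomial.X ^ 3 - Polynomial.C (a : ℂ) * Polynomial.X -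
    Polynomial.C (b : ℂ) with hf
  have hfd : f.natDegree ≤ 3 := by
    rw [hf]
    compute_degree
  have hf0 : f ≠ 0 := by
    intro h0
    have h3 : f.coeff 3 = 4 := by
      rw [hf]
      simp [Polynomial.coeff_X, Polynomial.coeff_C]
    rw [h0, Polynomial.coeff_zero] at h3
    norm_num at h3
  set F : Finset ℂ := f.roots.toFinset ∪ Finset.univ.image fun i => ℘[Λ] (z i) with hF
  have hFc : F.card ≤ 3 + n := by
    refine (Finset.card_union_le _ _).trans (add_le_add ?_ ?_)
    · exact ((Multiset.toFinset_card_le f.roots).trans (Polynomial.card_roots' f)).trans hfd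
    · exact Finset.card_image_le.trans (by simp)
  set S₂ : Finset ℕ := (Finset.range (H + 1)).filter fun g => ξ + (g : ℂ) ∈ F with hS₂
  have hS₂c : S₂.card ≤ 3 + n := by
    refine le_trans ?_ hFc
    refine Finset.card_le_card_of_injOn (fun g : ℕ => ξ + (g : ℂ)) (fun g hg => (Finset.mem_filter.1 hg).2) ?_
    intro g _ g' _ h
    have h' : ξ + (g : ℂ) = ξ + (g' : ℂ) := h
    exact_mod_cast add_left_cancel h'
  refine ⟨S₁ ∪ S₂, ?_, fun g hinj hg hbadP => ?_⟩
  · have h1 : ((S₁ ∪ S₂).card : Cardinal) ≤ (S₁.card : Cardinal) + (S₂.card : Cardinal) := by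
      exact_mod_cast Finset.card_union_le S₁ S₂
    have h2 : (S₂.card : Cardinal) ≤ ((3 + n : ℕ) : Cardinal) := by exact_mod_cast hS₂c
    refine h1.trans ((add_le_add hS₁ h2).trans (le_of_eq ?_))
    push_cast
    ring
  · have hg0 : ∀ i, ξ + (g i : ℂ) ≠ 0 := by
      intro i h0
      have h1 : ξ = -(g i : ℂ) := eq_neg_of_add_eq_zero_left h0
      have h2 : ‖ξ‖ = g i := by rw [h1, norm_neg, Complex.norm_natCast]
      have h3 : ((g i : ℕ) : ℝ) ≤ H := by exact_mod_cast (hg i).2.1
      linarith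
    obtain ⟨u, t, hu, hp, hpα, ht, hfr⟩ := badP_badE Λ _ z y (fun i => ξ + (g i : ℂ)) hg0 hbadP
    have hξd : IsIntegral ℚ ξ ∧ (minpoly ℚ ξ).natDegree ≤ m := by
      obtain ⟨p, h1, h2, h3, h4⟩ := hHt
      exact deg_of_root h1 h2 h4
    have hgF : ∀ i, ξ + (g i : ℂ) ∉ F := by
      intro i hi
      refine (hg i).2.2 (Finset.mem_union_right _ (Finset.mem_filter.2 ⟨?_, hi⟩))
      rw [Finset.mem_range]
      have := (hg i).2.1
      omega
    have hrel := ell_rel Λ a b ha hb hm1 (Sum.elim w (Hy.perV Λ)) (Fin.append z 0) (Fin.append 0 y)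
        (fun i => ξ + (g i : ℂ)) (fun i => by
      have hf1 : FiniteDimensional ℚ (IntermediateField.adjoin ℚ {ξ}) :=
        IntermediateField.adjoin.finiteDimensional hξd.1
      refine ⟨IntermediateField.adjoin ℚ {ξ}, hf1, ?_, ?_⟩
      · rw [IntermediateField.adjoin.finrank hξd.1]
        exact hξd.2
      · exact add_mem (IntermediateField.mem_adjoin_simple_self ℚ ξ) (natCast_mem _ _)) u t hu hp hpα ht (by
      intro i h0
      refine hgF i (Finset.mem_union_left _ ?_)
      rw [Multiset.mem_toFinset, Polynomial.mem_roots hf0, Polynomial.IsRoot.def, hf]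
      simpa using h0) (by
      intro i
      refine Fin.addCases (fun i => ?_) (fun l => ?_) i
      · rw [Fin.append_left]
        intro _ h0
        refine hgF (Fin.castAdd s i) (Finset.mem_union_right _ ?_)
        rw [← h0]
        exact Finset.mem_image_of_mem (fun i => ℘[Λ] (z i)) (Finset.mem_univ i)
      · rw [Fin.append_right]
        intro h0
        exact absurd (Submodule.zero_mem _) h0) hfr
    obtain ⟨K, hK1, hK2, P, hP0, hPd, hPc, hPv⟩ := hrel
    obtain ⟨Q, hQ1, hQ2⟩ := lift_poly K (cE1 Λ (Sum.elim w (Hy.perV Λ)) (Fin.append z 0) (Fin.append 0 y)) e δ P hPd hPc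
    -- remove the constant `1`
    let R := MvPolynomial ((Fin (q + (n * 4 + s * 2)) ⊕ Fin 5) ⊕ Fin (n + s) × Fin 3) K
    let xz : Fin n × Fin 4 → R := fun c => MvPolynomial.X (Sum.inl (Sum.inl (eqv (Sum.inr (Sum.inl c)))))
    let xy : Fin s × Fin 2 → R := fun c => MvPolynomial.X (Sum.inl (Sum.inl (eqv (Sum.inr (Sum.inr c)))))
    let hc : Fin (n + s) × Fin 6 → R := fun c =>
      Sum.elim (fun i => (![xz (i, 0), 0, xz (i, 1), xz (i, 2), xz (i, 3), 1] : Fin 6 → R) c.2)
        (fun l => (![0, xy (l, 0), 0, 0, 0, xy (l, 1)] : Fin 6 → R) c.2) (finSumFinEquiv.symm c.1)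
    let h : Option ((Fin q ⊕ Fin 5) ⊕ Fin (n + s) × Fin 6) ⊕ Fin (n + s) × Fin 3 → R :=
      Sum.elim (fun o => o.elim 1 (Sum.elim (Sum.elim
        (fun j => MvPolynomial.X (Sum.inl (Sum.inl (eqv (Sum.inl j)))))
        (fun j => MvPolynomial.X (Sum.inl (Sum.inr j)))) hc))
        fun c => MvPolynomial.X (Sum.inr c)
    have hd0 : (0 : R).totalDegree ≤ 1 := by
      rw [MvPolynomial.totalDegree_zero]
      exact Nat.zero_le _
    have hd1 : (1 : R).totalDegree ≤ 1 := by
      rw [MvPolynomial.totalDegree_one]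
      exact Nat.zero_le _
    have hhd : ∀ c, (h c).totalDegree ≤ 1 := by
      rintro ((_ | (j | j) | ⟨i, c⟩) | c)
      · exact hd1
      · exact (MvPolynomial.totalDegree_X _).le
      · exact (MvPolynomial.totalDegree_X _).le
      · refine Fin.addCases (fun i => ?_) (fun l => ?_) i
        · show (hc (Fin.castAdd s i, c)).totalDegree ≤ 1
          simp only [hc, finSumFinEquiv_symm_apply_castAdd, Sum.elim_inl]
          fin_cases c
          · exact (MvPolynomial.totalDegree_X _).le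
          · exact hd0
          · exact (MvPolynomial.totalDegree_X _).le
          · exact (MvPolynomial.totalDegree_X _).le
          · exact (MvPolynomial.totalDegree_X _).le
          · exact hd1
        · show (hc (Fin.natAdd n l, c)).totalDegree ≤ 1
          simp only [hc, finSumFinEquiv_symm_apply_natAdd, Sum.elim_inr]
          fin_cases c
          · exact hd0
          · exact (MvPolynomial.totalDegree_X _).le
          · exact hd0
          · exact hd0
          · exact hd0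
          · exact (MvPolynomial.totalDegree_X _).le
      · exact (MvPolynomial.totalDegree_X _).le
    have hev : ∀ v : Fin (n + s) × Fin 3 → ℂ, MvPolynomial.aeval
        (Sum.elim (Sum.elim (fun j => w₁ (eqv.symm j)) (Hy.perV Λ)) v) (MvPolynomial.aeval h Q) =
        MvPolynomial.aeval (Sum.elim (cE1 Λ (Sum.elim w (Hy.perV Λ)) (Fin.append z 0) (Fin.append 0 y)) v) Q := by
      intro v
      have h3 : (MvPolynomial.aeval (Sum.elim (Sum.elim (fun j => w₁ (eqv.symm j)) (Hy.perV Λ)) v) :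
          R →ₐ[K] ℂ).comp (MvPolynomial.aeval h) =
          MvPolynomial.aeval (Sum.elim (cE1 Λ (Sum.elim w (Hy.perV Λ)) (Fin.append z 0) (Fin.append 0 y)) v) := by
        refine MvPolynomial.algHom_ext fun c => ?_
        rcases c with (_ | (j | j) | ⟨i, c⟩) | c
        · simp [h, cE1]
        · simp [h, cE1, cE, hw₁]
        · simp [h, cE1, cE]
        · refine Fin.addCases (fun i => ?_) (fun l => ?_) i
          · fin_cases c <;> simp [h, hc, xz, cE1, cE, hw₁, Fin.append_left]
          · fin_cases c <;> simp [h, hc, xy, cE1, cE, hw₁, Fin.append_right, hz0, hp0, hp0']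
        · simp [h]
      exact DFunLike.congr_fun h3 Q
    have hdeg : (MvPolynomial.aeval h Q).totalDegree ≤ e + δ := by
      rw [MvPolynomial.aeval_def, MvPolynomial.eval₂_eq]
      refine MvPolynomial.totalDegree_finsetSum_le fun t ht => ?_
      have h3 : algebraMap K R (Q.coeff t) = MvPolynomial.C (Q.coeff t) := rfl
      rw [h3]
      refine (MvPolynomial.totalDegree_mul _ _).trans ?_
      rw [MvPolynomial.totalDegree_C, zero_add]
      refine (MvPolynomial.totalDegree_finset_prod _ _).trans ?_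
      refine le_trans (Finset.sum_le_sum fun i _ => ?_) ((MvPolynomial.le_totalDegree ht).trans hQ1)
      refine (MvPolynomial.totalDegree_pow _ _).trans ?_
      exact (Nat.mul_le_mul_left _ (hhd i)).trans (by rw [mul_one])
    have hid := hwin g hinj (fun i => ⟨(hg i).1, (hg i).2.1, fun h => (hg i).2.2 (Finset.mem_union_left _ h)⟩)
      (fun i => u i - Fin.append z 0 i) (fun i => t i - Fin.append 0 y i) (fun i => ⟨hp i, hpα i, ht i⟩) K hK1 hK2
      (MvPolynomial.aeval h Q) hdeg (by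
        rw [hev, hQ2]
        exact hPv)
    apply hP0
    refine MvPolynomial.funext fun v => ?_
    rw [map_zero]
    have h4 := congrArg (MvPolynomial.aeval (R := ℂ) v) hid
    rw [map_zero, Af.eval_sub, hev, hQ2] at h4
    exact h4

end Pool.Agent.Y916.Sch
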