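import Pool.Agent.Y916.Af.All
import Pool.Agent.Y916.Af.Ind
import Pool.Agent.Y916.Al.WinP
import Pool.Agent.Y916.Om.Fld
import Pool.Agent.Y916.Sl.Many

/-!
# Translates of a point of `ℂⁿ` by logarithms of algebraic numbers
-/

set_option autoImplicit false

open PowerSeries Module

namespace Pool.Agent.Y916.Sch

/-- relations of degree `≤ δ` over number fields of degree `≤ d` between the constants `w`, the numbers `x_i` and their
exponentials are identities in the `x_i` -/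
def Fr (δ d : ℕ) {q n : ℕ} (w : Fin q → ℂ) (x : Fin n → ℂ) : Prop :=
  ∀ L : IntermediateField ℚ ℂ, FiniteDimensional ℚ L → finrank ℚ L ≤ d →
  ∀ P : MvPolynomial (Fin q ⊕ (Fin n ⊕ Fin n)) L, P.totalDegree ≤ δ →
  MvPolynomial.aeval (Sum.elim w (Sum.elim x fun i => Complex.exp (x i))) P = 0 →
  ∀ y : Fin n → ℂ, MvPolynomial.aeval (Sum.elim w (Sum.elim y fun i => Complex.exp (x i))) P = 0

/-- the constants `w, z, exp z` -/
noncomputable def cst {q n : ℕ} (w : Fin q → ℂ) (z : Fin n → ℂ) : Fin q ⊕ (Fin n ⊕ Fin n) → ℂ :=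
  Sum.elim w (Sum.elim z fun i => Complex.exp (z i))

theorem lift {q n δ : ℕ} (L K : IntermediateField ℚ ℂ) (hLK : L ≤ K) (w : Fin q → ℂ) (z α : Fin n → ℂ)
    (hα : ∀ i, α i ∈ K) (P : MvPolynomial (Fin q ⊕ (Fin n ⊕ Fin n)) L) (hP : P.totalDegree ≤ δ) :
    ∃ Q : MvPolynomial ((Fin q ⊕ (Fin n ⊕ Fin n)) ⊕ Fin n) K, Q.totalDegree ≤ 2 * δ ∧
      ∀ y : Fin n → ℂ, MvPolynomial.aeval (Sum.elim (cst w z) y) Q =
        MvPolynomial.aeval (Sum.elim w (Sum.elim (fun i => z i + y i) fun i => α i * Complex.exp (z i))) P := by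
  classical
  let ι : L →+* K := (IntermediateField.inclusion hLK).toRingHom
  let f : Fin q ⊕ (Fin n ⊕ Fin n) → MvPolynomial ((Fin q ⊕ (Fin n ⊕ Fin n)) ⊕ Fin n) K :=
    Sum.elim (fun j => MvPolynomial.X (Sum.inl (Sum.inl j)))
      (Sum.elim (fun i => MvPolynomial.X (Sum.inl (Sum.inr (Sum.inl i))) + MvPolynomial.X (Sum.inr i))
        fun i => MvPolynomial.C (⟨α i, hα i⟩ : K) * MvPolynomial.X (Sum.inl (Sum.inr (Sum.inr i))))
  have hf : ∀ a, (f a).totalDegree ≤ 1 := by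
    rintro (j | i | i)
    · exact (MvPolynomial.totalDegree_X _).le
    · exact (MvPolynomial.totalDegree_add _ _).trans
        (max_le (MvPolynomial.totalDegree_X _).le (MvPolynomial.totalDegree_X _).le)
    · refine (MvPolynomial.totalDegree_mul _ _).trans ?_
      rw [MvPolynomial.totalDegree_C, zero_add]
      exact (MvPolynomial.totalDegree_X _).le
  refine ⟨MvPolynomial.eval₂ ((MvPolynomial.C).comp ι) f P, ?_, fun y => ?_⟩
  · rw [MvPolynomial.eval₂_eq]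
    refine MvPolynomial.totalDegree_finsetSum_le fun t ht => ?_
    rw [RingHom.comp_apply]
    refine (MvPolynomial.totalDegree_mul _ _).trans ?_
    rw [MvPolynomial.totalDegree_C, zero_add]
    refine (MvPolynomial.totalDegree_finset_prod _ _).trans ?_
    have h1 : (t.sum fun _ e => e) ≤ 2 * δ := ((MvPolynomial.le_totalDegree ht).trans hP).trans (by omega)
    refine le_trans (Finset.sum_le_sum fun i _ => ?_) h1
    refine (MvPolynomial.totalDegree_pow _ _).trans ?_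
    exact (Nat.mul_le_mul_left _ (hf i)).trans (by rw [mul_one])
  · have h1 : ((MvPolynomial.aeval (Sum.elim (cst w z) y) :
        MvPolynomial ((Fin q ⊕ (Fin n ⊕ Fin n)) ⊕ Fin n) K →ₐ[K] ℂ).toRingHom).comp
        (MvPolynomial.eval₂Hom ((MvPolynomial.C).comp ι) f) =
        (MvPolynomial.aeval (Sum.elim w (Sum.elim (fun i => z i + y i) fun i => α i * Complex.exp (z i))) :
          MvPolynomial (Fin q ⊕ (Fin n ⊕ Fin n)) L →ₐ[L] ℂ).toRingHom := by
      refine MvPolynomial.ringHom_ext (fun a => ?_) ?_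
      · simp only [RingHom.comp_apply, MvPolynomial.coe_eval₂Hom, MvPolynomial.eval₂_C, AlgHom.toRingHom_eq_coe,
          RingHom.coe_coe, MvPolynomial.aeval_C]
        rfl
      · rintro (j | i | i)
        · simp [f, cst]
        · simp [f, cst]
        · simp [f, cst]
    exact DFunLike.congr_fun h1 P

/-- the empty family -/
theorem fam0 : Pool.Agent.Y916.Af.GFam (r := 0) 1 (fun i => i.elim0) (fun i => i.elim0) := by
  refine ⟨one_ne_zero, fun i => i.elim0, ⟨0, fun i => i.elim0⟩, ⟨1, fun m => ⟨1, one_pos, by simp, fun i => i.elim0⟩⟩,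
    ⟨1, fun m => ⟨1, one_pos, by simp, fun s _ i => i.elim0⟩⟩, ?_⟩
  refine ⟨1, one_ne_zero, 0, 0, 0, fun i => i.elim0, fun i => i.elim0, ?_⟩
  rw [Matrix.det_isEmpty]
  exact one_ne_zero

theorem aeval0 (h : Fin 0 → ℚ⟦X⟧) (R : MvPolynomial (Fin 0) (Polynomial ℚ)) :
    ∃ c : Polynomial ℚ, R = MvPolynomial.C c ∧ MvPolynomial.aeval h R = (c : ℚ⟦X⟧) := by
  refine ⟨_, MvPolynomial.eq_C_of_isEmpty R, ?_⟩
  rw [MvPolynomial.eq_C_of_isEmpty R, MvPolynomial.aeval_C, PowerSeries.algebraMap_apply']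
  have h1 : (algebraMap ℚ ℚ) = RingHom.id ℚ := rfl
  rw [h1, PowerSeries.map_id, id, MvPolynomial.coeff_C, if_pos rfl]

theorem conn0 (h : Fin 0 → ℚ⟦X⟧) : Pool.Agent.Y118.UL.Conn h := by
  have hcoe : ∀ a : Polynomial ℚ, algebraMap (Polynomial ℚ) (FractionRing ℚ⟦X⟧) a =
      algebraMap ℚ⟦X⟧ (FractionRing ℚ⟦X⟧) (a : ℚ⟦X⟧) := by
    intro a
    rw [IsScalarTower.algebraMap_apply (Polynomial ℚ) ℚ⟦X⟧ (FractionRing ℚ⟦X⟧) a, PowerSeries.algebraMap_apply']
    have h1 : (algebraMap ℚ ℚ) = RingHom.id ℚ := rfl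
    rw [h1, PowerSeries.map_id, id]
  intro A B _
  obtain ⟨a, -, ha⟩ := aeval0 h A
  obtain ⟨b, -, hb⟩ := aeval0 h B
  rw [ha, hb]
  by_cases h0 : b = 0
  · refine ⟨0, 1, one_ne_zero, ?_⟩
    subst h0
    simp
  · exact ⟨a, b, h0, by rw [hcoe, hcoe]⟩

theorem fib0 (h : Fin 0 → ℚ⟦X⟧) {k : ℕ} (x : Fin k → ℂ) (y : Fin k × Option (Fin 0) → ℂ) :
    y ∈ Pool.Agent.Y916.Af.Fib h x := by
  intro j R hR
  obtain ⟨c, h1, h2⟩ := aeval0 h R
  rw [h2] at hR
  have h3 : c = 0 := by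
    have : (c : ℚ⟦X⟧) = ((0 : Polynomial ℚ) : ℚ⟦X⟧) := by rw [hR, Polynomial.coe_zero]
    exact Polynomial.coe_inj.1 this
  rw [h1, h3, map_zero, MvPolynomial.eval₂_zero]

end Pool.Agent.Y916.Sch
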