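import Pool.Agent.Y916.Sch.Lift

/-!
# Translates of a point of `ℂⁿ` by logarithms of algebraic numbers: almost all tuples, windows
-/

set_option autoImplicit false

open PowerSeries Module

namespace Pool.Agent.Y916.Sch

theorem deg_of_root {m : ℕ} {α : ℂ} {p : Polynomial ℤ} (hp : p ≠ 0) (hpd : p.natDegree ≤ m)
    (h : Polynomial.aeval α p = 0) : IsIntegral ℚ α ∧ (minpoly ℚ α).natDegree ≤ m := by
  have h0 : p.map (Int.castRingHom ℚ) ≠ 0 := (Polynomial.map_ne_zero_iff (RingHom.injective_int _)).2 hp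
  have h1 : Polynomial.aeval α (p.map (Int.castRingHom ℚ)) = 0 := by
    rw [← h, Polynomial.aeval_def, Polynomial.aeval_def, Polynomial.eval₂_map]
    congr 1
  have h2 : IsAlgebraic ℚ α := ⟨_, h0, h1⟩
  refine ⟨h2.isIntegral, ?_⟩
  refine (Polynomial.natDegree_le_of_dvd (minpoly.dvd ℚ α h1) h0).trans ?_
  exact (Polynomial.natDegree_map_le).trans hpd

/-- the failure of `Fr` at `z + log α` -/
def Bad (δ d : ℕ) {q n : ℕ} (w : Fin q → ℂ) (z α : Fin n → ℂ) : Prop :=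
  ∃ x : Fin n → ℂ, (∀ i, Complex.exp (x i) = α i * Complex.exp (z i)) ∧ ¬ Fr δ d w x

theorem exp_sub' {n : ℕ} {z α x : Fin n → ℂ} (h : ∀ i, Complex.exp (x i) = α i * Complex.exp (z i)) (i : Fin n) :
    Complex.exp (x i - z i) = α i := by
  rw [Complex.exp_sub, h i, mul_div_cancel_right₀ _ (Complex.exp_ne_zero _)]

/-- the polynomial of a relation -/
theorem bad_poly {δ d q n m : ℕ} (hm : 1 ≤ m) {w : Fin q → ℂ} {z α : Fin n → ℂ}
    (hα : ∀ i, ∃ K : IntermediateField ℚ ℂ, FiniteDimensional ℚ K ∧ finrank ℚ K ≤ m ∧ α i ∈ K)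
    (h : Bad δ d w z α) : ∃ x : Fin n → ℂ, (∀ i, Complex.exp (x i - z i) = α i) ∧
      ∃ K : IntermediateField ℚ ℂ, FiniteDimensional ℚ K ∧ finrank ℚ K ≤ d * m ^ n ∧
      ∃ Q : MvPolynomial ((Fin q ⊕ (Fin n ⊕ Fin n)) ⊕ Fin n) K, Q.totalDegree ≤ 2 * δ ∧
        MvPolynomial.aeval (Sum.elim (cst w z) fun i => x i - z i) Q = 0 ∧
        ∃ y : Fin n → ℂ, MvPolynomial.aeval (Sum.elim (cst w z) y) Q ≠ 0 := by
  classical
  obtain ⟨x, hx, hF⟩ := h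
  simp only [Fr, not_forall] at hF
  obtain ⟨L, hL1, hL2, P, hP1, hP2, y, hy⟩ := hF
  obtain ⟨K, hK1, hK2, hK3, hK4⟩ := Pool.Agent.Y916.Om.field L hL1 m (Finset.univ.image α) (by
    intro v hv
    obtain ⟨i, -, rfl⟩ := Finset.mem_image.1 hv
    obtain ⟨K₁, h1, h2, h3⟩ := hα i
    have h4 : IsIntegral ℚ (⟨α i, h3⟩ : K₁) := Algebra.IsIntegral.isIntegral _
    have h5 : minpoly ℚ (α i) = minpoly ℚ (⟨α i, h3⟩ : K₁) :=
      (minpoly.algebraMap_eq (B' := ℂ) (algebraMap K₁ ℂ).injective (⟨α i, h3⟩ : K₁))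
    refine ⟨h4.map (IsScalarTower.toAlgHom ℚ K₁ ℂ), ?_⟩
    rw [h5]
    exact (minpoly.natDegree_le _).trans h2)
  have hαK : ∀ i, α i ∈ K := fun i =>
    hK2 (IntermediateField.subset_adjoin ℚ _ (Finset.mem_coe.2 (Finset.mem_image_of_mem α (Finset.mem_univ i))))
  obtain ⟨Q, hQ1, hQ2⟩ := lift L K hK1 w z α hαK P hP1
  refine ⟨x, exp_sub' hx, K, hK3, ?_, Q, hQ1, ?_, fun i => y i - z i, ?_⟩
  · refine hK4.trans (Nat.mul_le_mul hL2 (Nat.pow_le_pow_right hm ?_))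
    exact (Finset.card_image_le).trans (by simp)
  · rw [hQ2, ← hP2]
    congr 2
    funext a
    rcases a with a | a | a
    · rfl
    · simp
    · simp [hx a]
  · rw [hQ2]
    intro h0
    refine hy (h0 ▸ ?_)
    congr 2
    funext a
    rcases a with a | a | a
    · rfl
    · simp
    · simp [hx a]

/-- almost all tuples -/
theorem tup (n q m δ d : ℕ) (hm : 1 ≤ m) :
    ∃ c : ℝ, 0 < c ∧ ∃ C : ℝ, 0 ≤ C ∧ ∀ (w : Fin q → ℂ) (z : Fin n → ℂ) (T : ℕ), 1 ≤ T →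
      {α : Fin n → ℂ | (∀ i, Sl.AInt m T (α i)) ∧ Bad δ d w z α}.Finite ∧
      ({α : Fin n → ℂ | (∀ i, Sl.AInt m T (α i)) ∧ Bad δ d w z α}.ncard : ℝ) ≤
        C * (T : ℝ) ^ (((n * Sl.Mm m : ℕ) : ℝ) - c) := by
  classical
  obtain ⟨c, hc, C, hC, h⟩ := Pool.Agent.Y916.Af.tupC Pool.Agent.Y916.Af.nr Pool.Agent.Y916.Af.t_br2
    Pool.Agent.Y916.Af.conn fam0 (conn0 _) n m (2 * δ) (d * m ^ n) ((q + (n + n) + 1) ^ (2 * δ))
  refine ⟨c, hc, C, hC, fun w z T hT => ?_⟩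
  set f : Option (Fin q ⊕ (Fin n ⊕ Fin n)) → ℂ := fun o => o.elim 1 (cst w z) with hf
  set W : Submodule ℚ ℂ := Submodule.span ℚ (Set.range f) with hW
  have hW1 : (1 : ℂ) ∈ W := Submodule.subset_span ⟨none, rfl⟩
  have hWw : ∀ j, cst w z j ∈ W := fun j => Submodule.subset_span ⟨some j, rfl⟩
  have hWf : Module.Finite ℚ W := Module.Finite.span_of_finite ℚ (Set.finite_range _)
  have hWd : finrank ℚ W ≤ q + (n + n) + 1 := by
    refine (finrank_range_le_card _).trans ?_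
    simp
  obtain ⟨hb1, hb2⟩ := Om.finrank_pow_le W (2 * δ)
  obtain ⟨h1, h2⟩ := h (W ^ (2 * δ)) hb1 (hb2.trans (Nat.pow_le_pow_left hWd _)) T hT
  have hT1 : (1 : ℝ) ≤ T := by exact_mod_cast hT
  have hsub : {α : Fin n → ℂ | (∀ i, Sl.AInt m T (α i)) ∧ Bad δ d w z α} ⊆
      {α : Fin n → ℂ | (∀ i, Sl.AInt m T (α i)) ∧
        Af.ExcC (r := 0) (fun i => i.elim0) (2 * δ) (d * m ^ n) (W ^ (2 * δ)) α} := by
    rintro α ⟨hα, hbad⟩
    refine ⟨hα, ?_⟩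
    obtain ⟨x, hx, K, hK1, hK2, Q, hQ1, hQ2, y, hy⟩ := bad_poly hm (fun i => by
      obtain ⟨K, ξ', h5, h6, h7, -⟩ := (hα i).pt hT1
      refine ⟨K, h5, h6, ?_⟩
      rw [← h7]
      exact ξ'.2) hbad
    set Q₂ : MvPolynomial ((Fin q ⊕ (Fin n ⊕ Fin n)) ⊕ Fin n × Option (Fin 0)) K :=
      MvPolynomial.rename (Sum.map id fun i => (i, none)) Q with hQ₂
    have hQ₂d : Q₂.totalDegree ≤ 2 * δ := (MvPolynomial.totalDegree_rename_le _ _).trans hQ1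
    have hev : ∀ v : Fin n × Option (Fin 0) → ℂ, MvPolynomial.aeval (Sum.elim (cst w z) v) Q₂ =
        MvPolynomial.aeval (Sum.elim (cst w z) fun i => v (i, none)) Q := by
      intro v
      rw [hQ₂, MvPolynomial.aeval_rename]
      congr 2
      funext a
      rcases a with a | a <;> rfl
    refine ⟨fun i => x i - z i, hx, K, hK1, hK2, _, Af.deg_sub K (cst w z) Q₂ hQ₂d,
      fun s => Af.coeff_sub K (cst w z) W hW1 hWw Q₂ hQ₂d s, ?_, fun p => y p.1, fib0 _ _ _, ?_⟩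
    · rw [Af.eval_sub, hev]
      exact hQ2
    · rw [Af.eval_sub, hev]
      exact hy
  exact ⟨h1.subset hsub, le_trans (by exact_mod_cast Set.ncard_le_ncard hsub h1) h2⟩

end Pool.Agent.Y916.Sch
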